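import Mathlib

/-!
# Boxes in dense sets of tuples
(helper22)
-/

set_option autoImplicit false

namespace Pool.Agent.Helper22K9.Trp

open Finset

/-- tuples of `Fin k → V` which are not injective -/
lemma noninj {V : Type*} [Fintype V] [DecidableEq V] (k : ℕ) :
    ((univ : Finset (Fin k → V)).filter (fun y => ¬ Function.Injective y)).card * Fintype.card V ≤
      k ^ 2 * Fintype.card V ^ k := by
  classical
  have h1 : (univ : Finset (Fin k → V)).filter (fun y => ¬ Function.Injective y) ⊆
      ((univ : Finset (Fin k × Fin k)).filter (fun z => z.1 ≠ z.2)).biUnion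
        (fun z => univ.filter (fun y : Fin k → V => y z.1 = y z.2)) := by
    intro y hy
    rw [mem_filter] at hy
    have := hy.2
    unfold Function.Injective at this
    push Not at this
    obtain ⟨a, b, h1, h2⟩ := this
    rw [mem_biUnion]
    exact ⟨(a, b), mem_filter.2 ⟨mem_univ _, h2⟩, mem_filter.2 ⟨mem_univ _, h1⟩⟩
  have h2 : ∀ z ∈ (univ : Finset (Fin k × Fin k)).filter (fun z => z.1 ≠ z.2),
      ((univ : Finset (Fin k → V)).filter (fun y : Fin k → V => y z.1 = y z.2)).card * Fintype.card V ≤
        Fintype.card V ^ k := by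
    intro z hz
    rw [mem_filter] at hz
    have hz2 : z.1 ≠ z.2 := hz.2
    have h3 : (((univ : Finset (Fin k → V)).filter (fun y : Fin k → V => y z.1 = y z.2)) ×ˢ
        (univ : Finset V)).card ≤ (univ : Finset (Fin k → V)).card := by
      refine card_le_card_of_injOn (fun w => Function.update w.1 z.1 w.2) (fun _ _ => mem_coe.2 (mem_univ _)) ?_
      rintro ⟨y, a⟩ hy ⟨y', a'⟩ hy' h
      rw [coe_product, Set.mem_prod] at hy hy'
      have e1 := hy.1
      have e2 := hy'.1
      rw [coe_filter] at e1 e2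
      have e3 : y z.1 = y z.2 := e1.2
      have e4 : y' z.1 = y' z.2 := e2.2
      have h' : Function.update y z.1 a = Function.update y' z.1 a' := h
      have h5 : a = a' := by
        have := congrFun h' z.1
        simpa using this
      have h6 : ∀ j, j ≠ z.1 → y j = y' j := by
        intro j hj
        have := congrFun h' j
        rwa [Function.update_of_ne hj, Function.update_of_ne hj] at this
      have h7 : y = y' := by
        funext j
        rcases eq_or_ne j z.1 with rfl | hj
        · rw [e3, e4]; exact h6 _ (Ne.symm hz2)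
        · exact h6 j hj
      rw [h5, h7]
    rw [card_product] at h3
    simpa using h3
  calc _ ≤ (∑ z ∈ (univ : Finset (Fin k × Fin k)).filter (fun z => z.1 ≠ z.2),
        ((univ : Finset (Fin k → V)).filter (fun y : Fin k → V => y z.1 = y z.2)).card) * Fintype.card V :=
        Nat.mul_le_mul_right _ ((card_le_card h1).trans card_biUnion_le)
    _ = ∑ z ∈ (univ : Finset (Fin k × Fin k)).filter (fun z => z.1 ≠ z.2),
        ((univ : Finset (Fin k → V)).filter (fun y : Fin k → V => y z.1 = y z.2)).card * Fintype.card V := by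
        rw [sum_mul]
    _ ≤ ∑ _z ∈ (univ : Finset (Fin k × Fin k)).filter (fun z => z.1 ≠ z.2), Fintype.card V ^ k :=
        sum_le_sum h2
    _ = ((univ : Finset (Fin k × Fin k)).filter (fun z => z.1 ≠ z.2)).card * Fintype.card V ^ k := by
        rw [sum_const, smul_eq_mul]
    _ ≤ _ := by
        refine Nat.mul_le_mul_right _ ((card_filter_le _ _).trans ?_)
        simp [sq]

/-- **Boxes.** A set of at least `δ N ^ m` of the `m`-tuples of a set with `N ≥ N₀` elements contains all the
tuples of a product of `m` sets with `K` elements. -/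
theorem box (K : ℕ) (m : ℕ) : ∀ δ : ℝ, 0 < δ → ∃ N₀ : ℕ, ∀ (V : Type) [Fintype V] [DecidableEq V],
    N₀ ≤ Fintype.card V → ∀ Q : Finset (Fin m → V), δ * (Fintype.card V : ℝ) ^ m ≤ Q.card →
    ∃ f : Fin m → Fin K → V, (∀ i, Function.Injective (f i)) ∧ ∀ σ : Fin m → Fin K, (fun i => f i (σ i)) ∈ Q := by
  induction m with
  | zero =>
    intro δ hδ
    refine ⟨0, fun V _ _ _ Q hQ => ⟨fun i => i.elim0, fun i => i.elim0, fun σ => ?_⟩⟩
    have hne : Q.Nonempty := by
      rw [nonempty_iff_ne_empty]
      rintro rfl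
      simp at hQ
      linarith
    obtain ⟨q, hq⟩ := hne
    have : (fun i : Fin 0 => (Fin.elim0 i : Fin K → V) (σ i)) = q := Subsingleton.elim _ _
    rw [this]
    exact hq
  | succ m ih =>
    intro δ hδ
    rcases Nat.eq_zero_or_pos K with hK0 | hKpos
    · subst hK0
      exact ⟨0, fun V _ _ _ Q _ => ⟨fun _ => Fin.elim0, fun _ a => a.elim0, fun σ => (σ 0).elim0⟩⟩
    obtain ⟨k', rfl⟩ : ∃ k', K = k' + 1 := ⟨K - 1, by omega⟩
    obtain ⟨δ', hδ'⟩ : ∃ δ' : ℝ, δ' = δ ^ (k' + 1) / 2 := ⟨_, rfl⟩
    have hδ'0 : 0 < δ' := by rw [hδ']; positivity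
    obtain ⟨N₀, h⟩ := ih δ' hδ'0
    obtain ⟨N₁, hN₁⟩ := exists_nat_gt (((k' + 1 : ℕ) : ℝ) ^ 2 / δ')
    refine ⟨max (max N₀ N₁) 1, fun V _ _ hN Q hQ => ?_⟩
    classical
    have hN0' : N₀ ≤ Fintype.card V := ((le_max_left _ _).trans (le_max_left _ _)).trans hN
    have hN1' : N₁ ≤ Fintype.card V := ((le_max_right _ _).trans (le_max_left _ _)).trans hN
    have hNpos : 1 ≤ Fintype.card V := (le_max_right _ _).trans hN
    obtain ⟨N, hNdef⟩ : ∃ N : ℝ, N = (Fintype.card V : ℝ) := ⟨_, rfl⟩
    have hN0 : 0 < N := by rw [hNdef]; exact_mod_cast hNpos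
    rw [← hNdef] at hQ
    have hKN : ((k' + 1 : ℕ) : ℝ) ^ 2 < δ' * N := by
      rw [div_lt_iff₀ hδ'0] at hN₁
      have : (N₁ : ℝ) ≤ N := by rw [hNdef]; exact_mod_cast hN1'
      nlinarith
    -- fibres
    obtain ⟨c, hc⟩ : ∃ c : (Fin m → V) → ℕ, c = fun u =>
      ((univ : Finset V).filter (fun y => (Fin.cons y u : Fin (m + 1) → V) ∈ Q)).card := ⟨_, rfl⟩
    have hsum : ∑ u : Fin m → V, c u = Q.card := by
      rw [hc]
      simp_rw [card_filter]
      have e1 : Q.card = ∑ v : Fin (m + 1) → V, if v ∈ Q then 1 else 0 := by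
        rw [← card_filter]; congr 1; ext v; simp
      rw [e1, ← Equiv.sum_comp (Fin.consEquiv (fun _ => V)), Fintype.sum_prod_type_right]
      rfl
    -- power mean
    have hpow : δ ^ (k' + 1) * N ^ (k' + 1 + m) ≤ ∑ u : Fin m → V, (c u : ℝ) ^ (k' + 1) := by
      have h1 := pow_sum_div_card_le_sum_pow (s := (univ : Finset (Fin m → V))) (f := fun u => (c u : ℝ))
        (fun _ _ => Nat.cast_nonneg _) k'
      refine le_trans ?_ h1
      have h2 : ∑ u : Fin m → V, (c u : ℝ) = Q.card := by rw [← hsum]; push_cast; rfl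
      have h3 : ((univ : Finset (Fin m → V)).card : ℝ) = N ^ m := by rw [hNdef]; simp
      rw [h2, h3, le_div_iff₀ (by positivity)]
      calc δ ^ (k' + 1) * N ^ (k' + 1 + m) * (N ^ m) ^ k' = (δ * N ^ (m + 1)) ^ (k' + 1) := by
            rw [mul_pow, ← pow_mul, ← pow_mul, mul_assoc, ← pow_add]
            congr 2
            ring
        _ ≤ _ := pow_le_pow_left₀ (by positivity) hQ _
    -- double counting
    obtain ⟨g, hg⟩ : ∃ g : (Fin (k' + 1) → V) → Finset (Fin m → V), g = fun y =>
      (univ : Finset (Fin m → V)).filter (fun u => ∀ a, (Fin.cons (y a) u : Fin (m + 1) → V) ∈ Q) := ⟨_, rfl⟩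
    have hdc : ∑ u : Fin m → V, (c u) ^ (k' + 1) = ∑ y : Fin (k' + 1) → V, (g y).card := by
      have h1 : ∀ u : Fin m → V, (c u) ^ (k' + 1) = ∑ y : Fin (k' + 1) → V,
          if (∀ a, (Fin.cons (y a) u : Fin (m + 1) → V) ∈ Q) then 1 else 0 := by
        intro u
        rw [← card_filter]
        have h2 : (univ : Finset (Fin (k' + 1) → V)).filter (fun y => ∀ a, (Fin.cons (y a) u : Fin (m + 1) → V) ∈ Q) =
            Fintype.piFinset (fun _ : Fin (k' + 1) =>
              (univ : Finset V).filter (fun y => (Fin.cons y u : Fin (m + 1) → V) ∈ Q)) := by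
          ext y
          simp [Fintype.mem_piFinset]
        rw [h2, Fintype.card_piFinset, hc]
        simp
      simp_rw [h1]
      rw [sum_comm]
      refine sum_congr rfl fun y _ => ?_
      rw [hg]
      simp only [card_filter]
    have hbound : ∀ y, ((g y).card : ℝ) ≤ N ^ m := by
      intro y
      have : (g y).card ≤ Fintype.card V ^ m := by
        refine (card_le_univ _).trans ?_
        simp
      rw [hNdef]
      exact_mod_cast this
    -- an injective choice
    have hex : ∃ y : Fin (k' + 1) → V, Function.Injective y ∧ δ' * N ^ m ≤ (g y).card := by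
      by_contra hcon
      push Not at hcon
      have h1 : ∑ y : Fin (k' + 1) → V, ((g y).card : ℝ) ≤
          (((univ : Finset (Fin (k' + 1) → V)).filter (fun y => ¬ Function.Injective y)).card : ℝ) * N ^ m +
            N ^ (k' + 1) * (δ' * N ^ m) := by
        rw [← sum_filter_add_sum_filter_not (s := (univ : Finset (Fin (k' + 1) → V)))
          (fun y => ¬ Function.Injective y)]
        apply add_le_add
        · calc _ ≤ ∑ _y ∈ (univ : Finset (Fin (k' + 1) → V)).filter (fun y => ¬ Function.Injective y), N ^ m :=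
                sum_le_sum fun y _ => hbound y
            _ = _ := by rw [sum_const, nsmul_eq_mul]
        · calc _ ≤ ∑ _y ∈ (univ : Finset (Fin (k' + 1) → V)).filter (fun y => ¬ ¬ Function.Injective y),
                δ' * N ^ m := sum_le_sum fun y hy => by
                  rw [mem_filter, not_not] at hy
                  exact (hcon y hy.2).le
            _ ≤ ∑ _y : Fin (k' + 1) → V, δ' * N ^ m :=
                sum_le_sum_of_subset_of_nonneg (filter_subset _ _) fun _ _ _ => by positivity
            _ = _ := by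
                rw [sum_const, nsmul_eq_mul, hNdef]
                simp
      have h2 : (((univ : Finset (Fin (k' + 1) → V)).filter (fun y => ¬ Function.Injective y)).card : ℝ) * N ≤
          ((k' + 1 : ℕ) : ℝ) ^ 2 * N ^ (k' + 1) := by
        rw [hNdef]
        exact_mod_cast noninj (V := V) (k' + 1)
      have h3 : (((univ : Finset (Fin (k' + 1) → V)).filter (fun y => ¬ Function.Injective y)).card : ℝ) * N ^ m <
          δ' * N ^ (k' + 1 + m) := by
        have h4 : (((univ : Finset (Fin (k' + 1) → V)).filter (fun y => ¬ Function.Injective y)).card : ℝ) * N <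
            (δ' * N ^ (k' + 1)) * N := by
          refine lt_of_le_of_lt h2 ?_
          have h5 : 0 < N ^ (k' + 1) := by positivity
          nlinarith
        have h5 := lt_of_mul_lt_mul_right h4 hN0.le
        rw [pow_add N (k' + 1) m, ← mul_assoc]
        exact mul_lt_mul_of_pos_right h5 (by positivity)
      have h4 : ∑ u : Fin m → V, (c u : ℝ) ^ (k' + 1) = ∑ y : Fin (k' + 1) → V, ((g y).card : ℝ) := by
        exact_mod_cast hdc
      rw [h4] at hpow
      have h5 : N ^ (k' + 1) * (δ' * N ^ m) = δ' * N ^ (k' + 1 + m) := by ring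
      have h6 : δ ^ (k' + 1) * N ^ (k' + 1 + m) = δ' * N ^ (k' + 1 + m) + δ' * N ^ (k' + 1 + m) := by
        rw [hδ']; ring
      linarith
    obtain ⟨y, hy1, hy2⟩ := hex
    obtain ⟨f', hf1, hf2⟩ := h V hN0' (g y) (by rw [← hNdef]; exact hy2)
    refine ⟨Fin.cons y f', ?_, ?_⟩
    · intro i
      refine Fin.cases ?_ (fun j => ?_) i
      · rw [Fin.cons_zero]; exact hy1
      · rw [Fin.cons_succ]; exact hf1 j
    · intro σ
      have h1 := hf2 (fun j => σ j.succ)
      rw [hg] at h1
      have h2 := (mem_filter.1 h1).2 (σ 0)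
      convert h2 using 1
      funext i
      refine Fin.cases ?_ (fun j => ?_) i
      · simp
      · simp

end Pool.Agent.Helper22K9.Trp
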