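import Pool.Agent.Y877.Core

/-!
# A good tuple in every box of rough shifts
(helper22)
-/

set_option autoImplicit false

namespace Pool.Agent.Helper22K9.Trp

open Finset Filter Topology

/-- the number of the `n` such that all `n + t`, `t ∈ T`, are primes `≤ X` -/
def cnt (T : Finset ℕ) (X : ℕ) : ℕ := ((range (X + 1)).filter (fun n => ∀ t ∈ T, (n + t).Prime ∧ n + t ≤ X)).card

lemma adm_box (q ν m K : ℕ) (f : Fin m → Fin K → ℕ) (hq : ∀ p : ℕ, p.Prime → p ≤ m * K → p ∣ q)
    (hf : ∀ i a, Nat.Coprime q (ν + f i a)) (p : ℕ) (hp : p.Prime) :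
    ∃ n : ℤ, ∀ g i, ¬ ((p : ℤ) ∣ q * n + ((ν + f g i : ℕ) : ℕ)) := by
  by_cases hpq : p ∣ q
  · refine ⟨0, fun g i h => ?_⟩
    rw [mul_zero, zero_add] at h
    have h1 : p ∣ ν + f g i := by exact_mod_cast h
    have h2 := Nat.dvd_gcd hpq h1
    rw [hf g i] at h2
    exact hp.one_lt.ne' (Nat.dvd_one.1 h2)
  · have hbig : m * K < p := by
      by_contra h
      exact hpq (hq p hp (not_lt.1 h))
    -- the forbidden classes
    have hco : IsCoprime (q : ℤ) (p : ℤ) :=
      Nat.isCoprime_iff_coprime.2 ((Nat.Prime.coprime_iff_not_dvd hp).2 hpq).symm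
    obtain ⟨u, v, huv⟩ := hco
    obtain ⟨B, hB⟩ : ∃ B : Finset ℤ, B = (univ : Finset (Fin m × Fin K)).image
      (fun z => (-(u * ((ν + f z.1 z.2 : ℕ) : ℤ))) % p) := ⟨_, rfl⟩
    have hBc : B.card ≤ m * K := by
      rw [hB]
      refine card_image_le.trans ?_
      simp
    have hp0 : (0 : ℤ) < p := by exact_mod_cast hp.pos
    have hex : ∃ n ∈ Finset.Ico (0 : ℤ) p, n ∉ B := by
      by_contra hcon
      push Not at hcon
      have h1 := card_le_card (show Finset.Ico (0 : ℤ) p ⊆ B from fun n hn => hcon n hn)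
      rw [Int.card_Ico, sub_zero, Int.toNat_natCast] at h1
      omega
    obtain ⟨n, hn, hnB⟩ := hex
    refine ⟨n, fun g i h => hnB ?_⟩
    rw [hB, mem_image]
    refine ⟨(g, i), mem_univ _, ?_⟩
    rw [mem_Ico] at hn
    have h1 : (p : ℤ) ∣ n - (-(u * ((ν + f g i : ℕ) : ℤ))) := by
      have h2 : n - (-(u * ((ν + f g i : ℕ) : ℤ))) = u * (q * n + ((ν + f g i : ℕ) : ℤ)) + p * (v * n) := by
        have : n = (u * q + v * p) * n := by rw [huv, one_mul]
        linear_combination this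
      rw [h2]
      exact dvd_add (h.mul_left _) (dvd_mul_right _ _)
    have h4 : n % p = (-(u * ((ν + f g i : ℕ) : ℤ))) % p :=
      Int.emod_eq_emod_iff_emod_sub_eq_zero.2 (Int.emod_eq_zero_of_dvd h1)
    rw [← h4, Int.emod_eq_of_lt hn.1 hn.2]

/-- **A good tuple in every box.** -/
theorem boxgood (s : ℕ) (hs : 1 ≤ s) : ∃ K : ℕ, 1 ≤ K ∧ ∀ q : ℕ, 1 ≤ q →
    (∀ p : ℕ, p.Prime → p ≤ 4 * s * K → p ∣ q) → ∀ η : ℝ, 0 < η → ∀ᶠ X : ℕ in atTop,
    ∀ ν < q, ∀ f : Fin (4 * s) → Fin K → ℕ, Function.Injective (fun z : Fin (4 * s) × Fin K => f z.1 z.2) →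
      (∀ i a, f i a ^ 2 ≤ X) → (∀ i a, Nat.Coprime q (ν + f i a)) →
      ∃ τ : Fin (4 * s) → Fin K, ∃ e : Finset ℕ, e.card = s + 1 ∧ e ⊆ univ.image (fun i => f i (τ i)) ∧
        (X : ℝ) ^ (1 - η) ≤ (cnt e X : ℝ) := by
  obtain ⟨c, hc, hc1, H⟩ := Pool.Agent.Y877.coreT
  obtain ⟨K, hK, H⟩ := H (4 * s) s (by omega) (by
    have : (1 : ℝ) ≤ s := by exact_mod_cast hs
    push_cast
    nlinarith) 1 one_pos le_rfl
  refine ⟨K, hK, fun q hq hqp η hη => ?_⟩
  obtain ⟨η', hη'⟩ : ∃ η' : ℝ, η' = min (η / 2) 1 := ⟨_, rfl⟩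
  have hη'0 : 0 < η' := by rw [hη']; positivity
  have hη'1 : η' ≤ 1 := by rw [hη']; exact min_le_right _ _
  have hη'2 : η' ≤ η / 2 := by rw [hη']; exact min_le_left _ _
  have hdiv : Tendsto (fun X : ℕ => X / (4 * q)) atTop atTop :=
    tendsto_atTop.2 fun t => by
      filter_upwards [eventually_ge_atTop (t * (4 * q))] with x hx
      exact (Nat.le_div_iff_mul_le (by omega)).2 hx
  have hexp : ∀ᶠ X : ℕ in atTop, (X : ℝ) ^ (1 - η) ≤ ((X / (4 * q) : ℕ) : ℝ) ^ (1 - η') := by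
    have h1 : Tendsto (fun X : ℕ => (X : ℝ) ^ (η - η')) atTop atTop :=
      (tendsto_rpow_atTop (by linarith)).comp tendsto_natCast_atTop_atTop
    filter_upwards [h1.eventually_ge_atTop ((8 * (q : ℝ)) ^ (1 - η')), eventually_ge_atTop (8 * q)] with X h2 h3
    have hq0 : (0 : ℝ) < q := by exact_mod_cast hq
    have hX0 : (0 : ℝ) < X := by
      have : 0 < X := by omega
      exact_mod_cast this
    have h4 : (X : ℝ) / (8 * q) ≤ ((X / (4 * q) : ℕ) : ℝ) := by
      have h5 : X ≤ 8 * q * (X / (4 * q)) := by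
        have h6 := Nat.div_add_mod X (4 * q)
        have h7 := Nat.mod_lt X (by omega : 0 < 4 * q)
        have h8 : 1 ≤ X / (4 * q) := (Nat.le_div_iff_mul_le (by omega)).2 (by omega)
        nlinarith
      rw [div_le_iff₀ (by positivity)]
      have h9 : (X : ℝ) ≤ ((8 * q * (X / (4 * q)) : ℕ) : ℝ) := by exact_mod_cast h5
      rw [Nat.cast_mul] at h9
      push_cast at h9 ⊢
      linarith
    calc (X : ℝ) ^ (1 - η) = (X : ℝ) ^ (1 - η') / (X : ℝ) ^ (η - η') := by
          rw [← Real.rpow_sub hX0]; ring_nf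
      _ ≤ (X : ℝ) ^ (1 - η') / (8 * (q : ℝ)) ^ (1 - η') :=
          div_le_div_of_nonneg_left (by positivity) (by positivity) h2
      _ = ((X : ℝ) / (8 * q)) ^ (1 - η') := by rw [Real.div_rpow (by positivity) (by positivity)]
      _ ≤ _ := Real.rpow_le_rpow (by positivity) h4 (by linarith)
  filter_upwards [hdiv.eventually (H q hq η' hη'0 hη'1), hexp, eventually_ge_atTop (64 * q * q),
    eventually_ge_atTop 64] with X hX hXe hX1 hX2
  intro ν hν f hinj hf2 hfc
  obtain ⟨y, hy⟩ : ∃ y, y = X / (4 * q) := ⟨_, rfl⟩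
  rw [← hy] at hX hXe
  -- the square root
  have hfX : ∀ i a, 8 * q * f i a ≤ X := by
    intro i a
    have h1 := hf2 i a
    by_contra h
    push Not at h
    have h2 : X * X < (8 * q * f i a) * (8 * q * f i a) := Nat.mul_self_lt_mul_self h
    have h3 : (8 * q * f i a) * (8 * q * f i a) = 64 * q * q * (f i a ^ 2) := by ring
    rw [h3] at h2
    have h4 : 64 * q * q * (f i a ^ 2) ≤ X * X := Nat.mul_le_mul hX1 h1
    omega
  have hqX : 8 * q * ν ≤ X := by nlinarith
  have hy4 : 4 * q * y ≤ X := by rw [hy]; exact Nat.mul_div_le X (4 * q)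
  have hy5 : X < 4 * q * (y + 1) := by rw [hy]; exact Nat.lt_mul_div_succ X (by omega)
  have hy1 : 1 ≤ y := by
    rw [hy]
    exact (Nat.le_div_iff_mul_le (by omega)).2 (by nlinarith)
  have hbd : ∀ i a, ν + f i a ≤ y + 1 := by
    intro i a
    have h1 := hfX i a
    have h2 : 8 * q * (ν + f i a) ≤ 2 * X := by nlinarith
    have h3 : 8 * q * (ν + f i a) < 8 * q * (y + 1) := by nlinarith
    exact (Nat.lt_of_mul_lt_mul_left h3).le
  obtain ⟨S, σ, hS, hcnt⟩ := hX (fun i a => ν + f i a)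
    (fun z z' h => hinj (by
      have h' : ν + f z.1 z.2 = ν + f z'.1 z'.2 := h
      show f z.1 z.2 = f z'.1 z'.2
      omega))
    (fun i a => by have := hbd i a; omega)
    (fun p hp => adm_box q ν (4 * s) K f hqp hfc p hp)
  obtain ⟨S', hS'1, hS'2⟩ := exists_subset_card_eq hS
  refine ⟨σ, S'.image (fun g => f g (σ g)), ?_, image_subset_image (subset_univ _), ?_⟩
  · rw [card_image_of_injective _ (fun a b hab => by
      have := hinj (a₁ := (a, σ a)) (a₂ := (b, σ b)) hab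
      exact congrArg Prod.fst this), hS'2]
  · refine hXe.trans (hcnt.trans ?_)
    rw [Nat.cast_le]
    unfold cnt
    refine card_le_card_of_injOn (fun n => q * n + ν) ?_ ?_
    · intro n hn
      rw [coe_filter] at hn
      obtain ⟨h1, h2, h3, h4⟩ := hn
      have hn2 : n ≤ 2 * y := by
        have : (n : ℝ) ≤ 2 * y := by linarith
        exact_mod_cast this
      have hall : ∀ i a, q * n + ν + f i a ≤ X := by
        intro i a
        have e1 := hfX i a
        have e2 : q * n ≤ q * (2 * y) := Nat.mul_le_mul_left q hn2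
        nlinarith
      rw [coe_filter]
      refine ⟨?_, ?_⟩
      · show q * n + ν ∈ range (X + 1)
        rw [mem_range]
        have := hall ⟨0, by omega⟩ ⟨0, by omega⟩
        omega
      · intro t ht
        obtain ⟨g, hg, rfl⟩ := mem_image.1 ht
        have e1 := h4 g (hS'1 hg)
        exact ⟨by rw [add_assoc]; exact e1, hall g (σ g)⟩
    · intro n _ n' _ h
      have h' : q * n + ν = q * n' + ν := h
      have : q * n = q * n' := by omega
      exact Nat.eq_of_mul_eq_mul_left (by omega) this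

end Pool.Agent.Helper22K9.Trp
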