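import Mathlib

/-!
# The inequality of Moon-Moser and de Caen for tuples
(helper22)

`E` is a set of `r`-element subsets (edges) of a finite set `V`. A tuple is independent if its range contains no
edge. `P k` is the number of the independent `k`-tuples.
-/

set_option autoImplicit false

namespace Pool.Agent.Helper22K9.Trp

open Finset

variable {V : Type*} [Fintype V] [DecidableEq V]

open Classical in
/-- the tuple `v` contains no edge -/
def Ind (E : Finset (Finset V)) {k : ℕ} (v : Fin k → V) : Prop := ∀ e ∈ E, ¬ e ⊆ univ.image v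

open Classical in
/-- the number of independent `k`-tuples -/
noncomputable def P (E : Finset (Finset V)) (k : ℕ) : ℕ :=
  ((univ : Finset (Fin k → V)).filter (fun v => Ind E v)).card

omit [Fintype V] in
lemma Ind.mono {E : Finset (Finset V)} {k l : ℕ} {v : Fin k → V} {u : Fin l → V} (h : Ind E v)
    (hu : univ.image u ⊆ univ.image v) : Ind E u := fun e he he' => h e he (he'.trans hu)

omit [Fintype V] in
lemma image_insertNth {k : ℕ} (l : Fin (k + 1)) (y : V) (u : Fin k → V) :
    univ.image (Fin.insertNth (α := fun _ => V) l y u) = insert y (univ.image u) := by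
  ext z
  simp only [mem_image, mem_univ, true_and, mem_insert]
  constructor
  · rintro ⟨i, rfl⟩
    rcases Fin.eq_self_or_eq_succAbove l i with rfl | ⟨j, rfl⟩
    · left; simp
    · right; exact ⟨j, by simp⟩
  · rintro (rfl | ⟨j, rfl⟩)
    · exact ⟨l, by simp⟩
    · exact ⟨l.succAbove j, by simp⟩

open Classical in
/-- the number of the extensions of `u` by an entry at the place `l` -/
noncomputable def ext (E : Finset (Finset V)) {k : ℕ} (l : Fin (k + 1)) (u : Fin k → V) : ℕ :=
  ((univ : Finset V).filter (fun y => Ind E (Fin.insertNth (α := fun _ => V) l y u))).card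

open Classical in
lemma sum_ext (E : Finset (Finset V)) {k : ℕ} (l : Fin (k + 1)) :
    ∑ u : Fin k → V, ext E l u = P E (k + 1) := by
  unfold ext P
  simp_rw [card_filter]
  rw [← Equiv.sum_comp (Fin.insertNthEquiv (fun _ => V) l), Fintype.sum_prod_type_right]
  rfl

open Classical in
lemma ext_zero (E : Finset (Finset V)) {k : ℕ} (l : Fin (k + 1)) {u : Fin k → V} (hu : ¬ Ind E u) :
    ext E l u = 0 := by
  unfold ext
  rw [card_eq_zero, filter_eq_empty_iff]
  intro y _ h
  exact hu (h.mono (by rw [image_insertNth]; exact subset_insert _ _))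

/-- Cauchy-Schwarz -/
lemma cs (E : Finset (Finset V)) {k : ℕ} (l : Fin (k + 1)) :
    (P E (k + 1)) ^ 2 ≤ P E k * ∑ u : Fin k → V, (ext E l u) ^ 2 := by
  classical
  have h1 : ∑ u : Fin k → V, ext E l u = ∑ u ∈ univ.filter (fun v : Fin k → V => Ind E v), ext E l u := by
    rw [sum_filter]
    refine sum_congr rfl fun u _ => ?_
    split_ifs with h
    · rfl
    · exact ext_zero E l h
  rw [← sum_ext E l, h1]
  refine (sq_sum_le_card_mul_sum_sq).trans ?_
  unfold P
  refine Nat.mul_le_mul_left _ ?_
  exact sum_le_sum_of_subset (filter_subset _ _)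

open Classical in
/-- for an independent tuple `v` with the entry `x` appended at `l`: `update` -/
lemma sum_sq (E : Finset (Finset V)) {k : ℕ} (l : Fin (k + 1)) :
    ∑ u : Fin k → V, (ext E l u) ^ 2 =
      ∑ v ∈ univ.filter (fun v : Fin (k + 1) → V => Ind E v), ∑ x : V,
        (if Ind E (Function.update v l x) then 1 else 0) := by
  rw [sum_filter, ← Equiv.sum_comp (Fin.insertNthEquiv (fun _ => V) l), Fintype.sum_prod_type_right]
  refine sum_congr rfl fun u _ => ?_
  rw [sq]
  unfold ext
  rw [card_filter, sum_mul]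
  refine sum_congr rfl fun y _ => ?_
  have e1 : (Fin.insertNthEquiv (fun _ => V) l) (y, u) = Fin.insertNth (α := fun _ => V) l y u := rfl
  rw [e1]
  split_ifs with h
  · rw [one_mul]
    refine sum_congr rfl fun x _ => ?_
    rw [Fin.update_insertNth]
  · rw [zero_mul]

omit [Fintype V] in
open Classical in
/-- **The counting step.** -/
lemma step_count (E : Finset (Finset V)) {r : ℕ} (hE : ∀ e ∈ E, e.card = r) {k : ℕ}
    (v : Fin k → V) (hv : Ind E v) (x : V)
    (hx : ¬ Ind E (Fin.insertNth (α := fun _ => V) (Fin.last k) x v)) :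
    ((univ : Finset (Fin k)).filter (fun l => Ind E (Function.update v l x))).card ≤ r - 1 := by
  unfold Ind at hx
  push Not at hx
  obtain ⟨e, he, hsub⟩ := hx
  rw [image_insertNth] at hsub
  have hxe : x ∈ e := by
    by_contra h
    exact hv e he ((subset_insert_iff_of_notMem h).1 hsub)
  rw [← hE e he, ← card_erase_of_mem hxe]
  refine card_le_card_of_injOn v ?_ ?_
  · intro l hl
    rw [coe_filter] at hl
    have hl2 : Ind E (Function.update v l x) := hl.2
    have h1 := hl2 e he
    rw [not_subset] at h1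
    obtain ⟨y, hy, hy2⟩ := h1
    have hyx : y ≠ x := by
      rintro rfl
      exact hy2 (mem_image.2 ⟨l, mem_univ _, by simp⟩)
    have hyv : y ∈ univ.image v := by
      rcases mem_insert.1 (hsub hy) with h | h
      · exact absurd h hyx
      · exact h
    obtain ⟨j, -, hj⟩ := mem_image.1 hyv
    have hjl : j = l := by
      by_contra hne
      exact hy2 (mem_image.2 ⟨j, mem_univ _, by rw [Function.update_of_ne hne]; exact hj⟩)
    subst hjl
    rw [coe_erase]
    exact ⟨by rw [hj]; exact hy, by rw [hj]; exact hyx⟩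
  · intro l hl l' hl' hll
    by_contra hne
    rw [coe_filter] at hl
    have hl2 : Ind E (Function.update v l x) := hl.2
    have h1 := hl2 e he
    rw [not_subset] at h1
    obtain ⟨y, hy, hy2⟩ := h1
    have hyx : y ≠ x := by
      rintro rfl
      exact hy2 (mem_image.2 ⟨l, mem_univ _, by simp⟩)
    have hyv : y ∈ univ.image v := by
      rcases mem_insert.1 (hsub hy) with h | h
      · exact absurd h hyx
      · exact h
    obtain ⟨j, -, hj⟩ := mem_image.1 hyv
    have hjl : j = l := by
      by_contra hne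
      exact hy2 (mem_image.2 ⟨j, mem_univ _, by rw [Function.update_of_ne hne]; exact hj⟩)
    subst hjl
    exact hy2 (mem_image.2 ⟨l', mem_univ _, by
      rw [Function.update_of_ne (Ne.symm hne), ← hll]; exact hj⟩)

open Classical in
/-- **The inequality of Moon-Moser and de Caen.** -/
theorem ineq (E : Finset (Finset V)) {r : ℕ} (hr : 1 ≤ r) (hE : ∀ e ∈ E, e.card = r) (k : ℕ) :
    ((k + 1 : ℕ) : ℝ) * (P E (k + 1) : ℝ) ^ 2 ≤ (P E k : ℝ) *
      (((r : ℝ) - 1) * (Fintype.card V) * P E (k + 1) + ((k + 1 : ℕ) - r + 1 : ℝ) * P E (k + 2)) := by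
  -- sum over the places
  have h1 : (k + 1) * (P E (k + 1)) ^ 2 ≤ P E k * ∑ l : Fin (k + 1), ∑ u : Fin k → V, (ext E l u) ^ 2 := by
    rw [mul_sum]
    calc (k + 1) * (P E (k + 1)) ^ 2 = ∑ _l : Fin (k + 1), (P E (k + 1)) ^ 2 := by simp
      _ ≤ _ := sum_le_sum fun l _ => cs E l
  have h2 : ∑ l : Fin (k + 1), ∑ u : Fin k → V, (ext E l u) ^ 2 =
      ∑ v ∈ univ.filter (fun v : Fin (k + 1) → V => Ind E v), ∑ x : V,
        ((univ : Finset (Fin (k + 1))).filter (fun l => Ind E (Function.update v l x))).card := by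
    simp_rw [sum_sq]
    rw [sum_comm]
    refine sum_congr rfl fun v _ => ?_
    rw [sum_comm]
    refine sum_congr rfl fun x _ => ?_
    rw [card_filter]
  have h3 : ∀ v ∈ univ.filter (fun v : Fin (k + 1) → V => Ind E v), ∀ x : V,
      (((univ : Finset (Fin (k + 1))).filter (fun l => Ind E (Function.update v l x))).card : ℝ) ≤
        ((r : ℝ) - 1) + ((k + 1 : ℕ) - r + 1 : ℝ) *
          (if Ind E (Fin.insertNth (α := fun _ => V) (Fin.last (k + 1)) x v) then 1 else 0) := by
    intro v hv x
    rw [mem_filter] at hv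
    split_ifs with h
    · have : ((univ : Finset (Fin (k + 1))).filter (fun l => Ind E (Function.update v l x))).card ≤ k + 1 := by
        refine (card_filter_le _ _).trans ?_
        simp
      have h5 : (((univ : Finset (Fin (k + 1))).filter (fun l => Ind E (Function.update v l x))).card : ℝ) ≤
        ((k + 1 : ℕ) : ℝ) := by exact_mod_cast this
      linarith
    · have := step_count E hE v hv.2 x h
      have h5 : (((univ : Finset (Fin (k + 1))).filter (fun l => Ind E (Function.update v l x))).card : ℝ) ≤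
        ((r - 1 : ℕ) : ℝ) := by exact_mod_cast this
      rw [Nat.cast_sub hr, Nat.cast_one] at h5
      linarith
  have h4 : ∑ v ∈ univ.filter (fun v : Fin (k + 1) → V => Ind E v), ∑ x : V,
      ((if Ind E (Fin.insertNth (α := fun _ => V) (Fin.last (k + 1)) x v) then 1 else 0 : ℕ)) = P E (k + 2) := by
    rw [← sum_ext E (Fin.last (k + 1))]
    rw [sum_filter]
    refine sum_congr rfl fun v _ => ?_
    split_ifs with h
    · unfold ext
      rw [card_filter]
    · exact (ext_zero E _ h).symm
  have h5 : ((∑ v ∈ univ.filter (fun v : Fin (k + 1) → V => Ind E v), ∑ x : V,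
        ((univ : Finset (Fin (k + 1))).filter (fun l => Ind E (Function.update v l x))).card : ℕ) : ℝ) ≤
      ((r : ℝ) - 1) * (Fintype.card V) * P E (k + 1) + ((k + 1 : ℕ) - r + 1 : ℝ) * P E (k + 2) := by
    push_cast
    calc _ ≤ ∑ v ∈ univ.filter (fun v : Fin (k + 1) → V => Ind E v), ∑ x : V, (((r : ℝ) - 1) +
          ((k + 1 : ℕ) - r + 1 : ℝ) *
          (if Ind E (Fin.insertNth (α := fun _ => V) (Fin.last (k + 1)) x v) then 1 else 0)) :=
          sum_le_sum fun v hv => sum_le_sum fun x _ => h3 v hv x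
      _ = _ := by
          simp_rw [sum_add_distrib, ← mul_sum]
          rw [← h4]
          push_cast
          simp only [sum_const, nsmul_eq_mul, card_univ]
          unfold P
          ring
  calc ((k + 1 : ℕ) : ℝ) * (P E (k + 1) : ℝ) ^ 2 = (((k + 1) * (P E (k + 1)) ^ 2 : ℕ) : ℝ) := by push_cast; ring
    _ ≤ ((P E k * ∑ l : Fin (k + 1), ∑ u : Fin k → V, (ext E l u) ^ 2 : ℕ) : ℝ) := by exact_mod_cast h1
    _ = (P E k : ℝ) * ((∑ v ∈ univ.filter (fun v : Fin (k + 1) → V => Ind E v), ∑ x : V,
        ((univ : Finset (Fin (k + 1))).filter (fun l => Ind E (Function.update v l x))).card : ℕ) : ℝ) := by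
          rw [h2]; push_cast; ring
    _ ≤ _ := mul_le_mul_of_nonneg_left h5 (Nat.cast_nonneg _)

open Classical in
/-- tuples shorter than the edges are independent -/
lemma P_small (E : Finset (Finset V)) {r : ℕ} (hE : ∀ e ∈ E, e.card = r) {k : ℕ} (hk : k < r) :
    P E k = Fintype.card V ^ k := by
  unfold P
  rw [filter_true_of_mem]
  · simp
  · intro v _ e he h
    have h1 := card_le_card h
    have h2 : (univ.image v).card ≤ k := card_image_le.trans (by simp)
    rw [hE e he] at h1
    omega

open Classical in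
/-- the tuples that contain an edge -/
lemma P_edge (E : Finset (Finset V)) {r : ℕ} (hE : ∀ e ∈ E, e.card = r) :
    Fintype.card V ^ r ≤ P E r + E.card * r.factorial := by
  have h1 : (univ : Finset (Fin r → V)).card = Fintype.card V ^ r := by simp
  have h2 := card_filter_add_card_filter_not (s := (univ : Finset (Fin r → V))) (fun v => Ind E v)
  have h3 : ((univ : Finset (Fin r → V)).filter (fun v => ¬ Ind E v)).card ≤ E.card * r.factorial := by
    have hsub : (univ : Finset (Fin r → V)).filter (fun v => ¬ Ind E v) ⊆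
        E.biUnion (fun e => univ.filter (fun v : Fin r → V => univ.image v = e)) := by
      intro v hv
      rw [mem_filter] at hv
      have hv2 := hv.2
      unfold Ind at hv2
      push Not at hv2
      obtain ⟨e, he, hsub⟩ := hv2
      rw [mem_biUnion]
      refine ⟨e, he, mem_filter.2 ⟨mem_univ _, ?_⟩⟩
      symm
      refine eq_of_subset_of_card_le hsub ?_
      rw [hE e he]
      exact card_image_le.trans (by simp)
    refine (card_le_card hsub).trans (card_biUnion_le_card_mul _ _ _ ?_)
    intro e he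
    have hcard : Fintype.card (Fin r ↪ e) = r.factorial := by
      rw [Fintype.card_embedding_eq, Fintype.card_coe, hE e he, Fintype.card_fin, Nat.descFactorial_self]
    rw [← hcard, ← Finset.card_univ]
    refine card_le_card_of_surjOn (fun f : Fin r ↪ e => fun i => (f i : V)) ?_
    intro v hv
    rw [coe_filter] at hv
    have hv2 : univ.image v = e := hv.2
    have hinj : Function.Injective v := by
      have h5 : (univ.image v).card = (univ : Finset (Fin r)).card := by rw [hv2, hE e he]; simp
      have h6 := card_image_iff.1 h5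
      rw [coe_univ] at h6
      exact Set.injOn_univ.1 h6
    refine ⟨⟨fun i => ⟨v i, by rw [← hv2]; exact mem_image_of_mem v (mem_univ i)⟩, fun i j hij => ?_⟩,
      by simp, rfl⟩
    have := congrArg (Subtype.val) hij
    exact hinj this
  rw [h1] at h2
  have h4 : ((univ : Finset (Fin r → V)).filter (fun v => Ind E v)).card = P E r := rfl
  rw [h4] at h2
  omega

/-- **The chain.** -/
lemma chain (E : Finset (Finset V)) {s : ℕ} (hE : ∀ e ∈ E, e.card = s + 1) {d : ℝ}
    (hN : 0 < Fintype.card V) (hd : (1 - d) * (Fintype.card V : ℝ) ^ (s + 1) ≤ P E (s + 1)) (k : ℕ)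
    (hk : s ≤ k) (hpos : ∀ j, s ≤ j → j ≤ k → 0 < 1 - (j.choose s : ℝ) * d) :
    0 < (P E k : ℝ) ∧ (1 - (k.choose s : ℝ) * d) * (Fintype.card V) * P E k ≤ P E (k + 1) := by
  have hN0 : (0 : ℝ) < Fintype.card V := by exact_mod_cast hN
  induction k, hk using Nat.le_induction with
  | base =>
    rw [P_small E hE (Nat.lt_succ_self s)]
    refine ⟨by positivity, ?_⟩
    rw [Nat.choose_self]
    push_cast
    calc _ = (1 - d) * (Fintype.card V : ℝ) ^ (s + 1) := by ring
      _ ≤ _ := hd
  | succ k hk ih =>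
    obtain ⟨ih1, ih2⟩ := ih (fun j h1 h2 => hpos j h1 (by omega))
    have ha := hpos k hk (by omega)
    have hP1 : 0 < (P E (k + 1) : ℝ) := lt_of_lt_of_le (by positivity) ih2
    refine ⟨hP1, ?_⟩
    have h1 := ineq E (by omega : 1 ≤ s + 1) hE k
    have h2 : (k.choose s : ℝ) * ((k : ℝ) + 1) = ((k + 1).choose s : ℝ) * ((k : ℝ) + 1 - s) := by
      have := Nat.choose_mul_succ_eq k s
      have h3 : ((k.choose s * (k + 1) : ℕ) : ℝ) = (((k + 1).choose s * (k + 1 - s) : ℕ) : ℝ) := by
        rw [this]
      rw [Nat.cast_mul, Nat.cast_mul, Nat.cast_sub (by omega)] at h3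
      push_cast at h3
      exact h3
    have hks : (0 : ℝ) < (k : ℝ) + 1 - s := by
      have : (s : ℝ) ≤ k := by exact_mod_cast hk
      linarith
    have h4 : P E k * ((P E (k + 1) : ℝ) * (Fintype.card V) * (((k : ℝ) + 1) * (1 - (k.choose s : ℝ) * d) - s)) ≤
        P E k * (((k : ℝ) + 1 - s) * P E (k + 2)) := by
      have h5 : ((k : ℝ) + 1) * ((1 - (k.choose s : ℝ) * d) * (Fintype.card V) * P E k) * P E (k + 1) ≤
          ((k : ℝ) + 1) * (P E (k + 1) : ℝ) ^ 2 := by
        have h6 := mul_le_mul_of_nonneg_right ih2 hP1.le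
        have h7 := mul_le_mul_of_nonneg_left h6 (by positivity : (0 : ℝ) ≤ (k : ℝ) + 1)
        nlinarith
      push_cast at h1
      nlinarith
    have h5 := le_of_mul_le_mul_left h4 ih1
    have h6 : ((k : ℝ) + 1) * (1 - (k.choose s : ℝ) * d) - s =
        ((k : ℝ) + 1 - s) * (1 - ((k + 1).choose s : ℝ) * d) := by
      linear_combination (-d) * h2
    rw [h6] at h5
    have h7 : ((k : ℝ) + 1 - s) * ((1 - ((k + 1).choose s : ℝ) * d) * (Fintype.card V) * P E (k + 1)) ≤
        ((k : ℝ) + 1 - s) * P E (k + 2) := by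
      calc _ = (P E (k + 1) : ℝ) * (Fintype.card V) * (((k : ℝ) + 1 - s) * (1 - ((k + 1).choose s : ℝ) * d)) := by
            ring
        _ ≤ _ := h5
    exact le_of_mul_le_mul_left h7 hks

/-- **The number of the edges.** -/
theorem dens (E : Finset (Finset V)) {s m : ℕ} (hE : ∀ e ∈ E, e.card = s + 1) (hm : s + 1 ≤ m) {ε : ℝ}
    (hε : 0 < ε) (hN : 0 < Fintype.card V) (hP : (P E m : ℝ) < ε ^ m * (Fintype.card V : ℝ) ^ m) :
    (1 / ((m - 1).choose s : ℝ) - ε) * (Fintype.card V : ℝ) ^ (s + 1) ≤ (E.card : ℝ) * (s + 1).factorial := by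
  by_contra hcon
  push Not at hcon
  have hN0 : (0 : ℝ) < Fintype.card V := by exact_mod_cast hN
  obtain ⟨N, hNdef⟩ : ∃ N : ℝ, N = (Fintype.card V : ℝ) := ⟨_, rfl⟩
  rw [← hNdef] at hcon hP hN0
  obtain ⟨d, hd⟩ : ∃ d : ℝ, d = (E.card : ℝ) * (s + 1).factorial / N ^ (s + 1) := ⟨_, rfl⟩
  have hd0 : 0 ≤ d := by rw [hd]; positivity
  have hC1 : 1 ≤ (m - 1).choose s := Nat.choose_pos (by omega)
  have hC : (1 : ℝ) ≤ ((m - 1).choose s : ℝ) := by exact_mod_cast hC1
  have hd1 : d < 1 / ((m - 1).choose s : ℝ) - ε := by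
    rw [hd, div_lt_iff₀ (by positivity)]
    exact hcon
  have hε1 : ε < 1 := by
    have : 1 / ((m - 1).choose s : ℝ) ≤ 1 := by rw [div_le_one (by linarith)]; exact hC
    linarith
  have hθ : ∀ j, s ≤ j → j ≤ m - 1 → ε ≤ 1 - (j.choose s : ℝ) * d := by
    intro j h1 h2
    have h3 : (j.choose s : ℝ) ≤ ((m - 1).choose s : ℝ) := by exact_mod_cast Nat.choose_le_choose s h2
    have h4 : (j.choose s : ℝ) * d ≤ ((m - 1).choose s : ℝ) * d := mul_le_mul_of_nonneg_right h3 hd0
    have h5 : ((m - 1).choose s : ℝ) * d ≤ ((m - 1).choose s : ℝ) * (1 / ((m - 1).choose s : ℝ) - ε) :=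
      mul_le_mul_of_nonneg_left hd1.le (by linarith)
    have h6 : ((m - 1).choose s : ℝ) * (1 / ((m - 1).choose s : ℝ) - ε) = 1 - ((m - 1).choose s : ℝ) * ε := by
      field_simp
    nlinarith
  have hbase : (1 - d) * N ^ (s + 1) ≤ P E (s + 1) := by
    have h1 := P_edge E hE
    have h2 : N ^ (s + 1) ≤ (P E (s + 1) : ℝ) + (E.card : ℝ) * (s + 1).factorial := by
      rw [hNdef]; exact_mod_cast h1
    have h3 : d * N ^ (s + 1) = (E.card : ℝ) * (s + 1).factorial := by
      rw [hd]; field_simp
    linarith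
  have key : ∀ k, s ≤ k → k ≤ m → ε ^ k * N ^ k ≤ P E k := by
    intro k hk
    induction k, hk using Nat.le_induction with
    | base =>
      intro _
      rw [P_small E hE (Nat.lt_succ_self s)]
      push_cast
      rw [← hNdef]
      have : ε ^ s ≤ 1 := pow_le_one₀ hε.le hε1.le
      calc ε ^ s * N ^ s ≤ 1 * N ^ s := mul_le_mul_of_nonneg_right this (by positivity)
        _ = _ := one_mul _
    | succ k hk ih =>
      intro hkm
      have h1 := ih (by omega)
      obtain ⟨h2, h3⟩ := chain E hE hN (by rw [← hNdef]; exact hbase) k hk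
        (fun j a b => lt_of_lt_of_le hε (hθ j a (by omega)))
      rw [← hNdef] at h3
      have h4 := hθ k hk (by omega)
      calc ε ^ (k + 1) * N ^ (k + 1) = ε * N * (ε ^ k * N ^ k) := by ring
        _ ≤ (1 - (k.choose s : ℝ) * d) * N * P E k := by
            apply mul_le_mul _ h1 (by positivity) (mul_nonneg (hε.le.trans h4) hN0.le)
            exact mul_le_mul_of_nonneg_right h4 hN0.le
        _ ≤ _ := h3
  exact absurd (key m (by omega) le_rfl) (not_le.2 hP)

end Pool.Agent.Helper22K9.Trp
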