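import Pool.Agent.Helper22K9.Trp.Sing

/-!
# The average of the singular series (Gallagher), upper bound
(helper22)
-/

set_option autoImplicit false

namespace Pool.Agent.Helper22K9.Trp

open Finset Filter Topology Pool.Agent.H387R2 Pool.Agent.H386R2.HL

lemma WW_le (y : ℕ) : Uni.WW y ≤ 4 ^ y := by
  refine le_trans (le_of_eq ?_) (primorial_le_four_pow y)
  unfold Uni.WW primorial
  rfl

/-- one truncation -/
lemma gall_aux (s y D : ℕ) {K : ℝ} (hK : 1 ≤ K) (htt : ∀ n : ℕ, 1 ≤ n → n ≤ D → tt y n ≤ K) :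
    ((s + 1).factorial : ℝ) * ∑ T ∈ (Icc 1 D).powersetCard (s + 1), Uni.CT T ≤
      K ^ ((s + 1) * (s + 1)) * ((D : ℝ) + Uni.WW y) ^ (s + 1) := by
  classical
  obtain ⟨W, hW⟩ : ∃ W, W = Uni.WW y := ⟨_, rfl⟩
  rw [← hW]
  have hWpos : 0 < W := by rw [hW]; exact Uni.WW_pos y
  have hW0 : (0 : ℝ) < W := by exact_mod_cast hWpos
  have hφpos : 0 < Nat.totient W := Nat.totient_pos.2 hWpos
  have hφ0 : (0 : ℝ) < Nat.totient W := by exact_mod_cast hφpos
  have hK0 : (0 : ℝ) < K := by linarith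
  have h1 : ∀ T ∈ (Icc 1 D).powersetCard (s + 1), Uni.CT T ≤
      K ^ ((s + 1) * (s + 1)) * (((W : ℝ) / Nat.totient W) ^ (s + 1) * (Uni.gT W T / W)) := by
    intro T hT
    rw [mem_powersetCard] at hT
    have := Uni.CT_le T y hK (M := D) (fun t ht => (mem_Icc.1 (hT.1 ht)).2) htt
    rw [hT.2, ← hW] at this
    exact this
  have h2 : ∑ T ∈ (Icc 1 D).powersetCard (s + 1), (Uni.gT W T : ℝ) =
      ∑ ν ∈ range W, ((((Icc 1 D).filter (fun a => Nat.Coprime W (ν + a))).card.choose (s + 1) : ℕ) : ℝ) := by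
    have := Uni.sum_choose (range W) (Icc 1 D) (s + 1) (fun ν a => Nat.Coprime W (ν + a))
    unfold Uni.gT
    exact_mod_cast this.symm
  have h3 : ∀ ν ∈ range W, ((s + 1).factorial : ℝ) *
      ((((Icc 1 D).filter (fun a => Nat.Coprime W (ν + a))).card.choose (s + 1) : ℕ) : ℝ) ≤
      ((Nat.totient W : ℝ) * (D / W + 1)) ^ (s + 1) := by
    intro ν _
    obtain ⟨b, hb⟩ : ∃ b, b = ((Icc 1 D).filter (fun a => Nat.Coprime W (ν + a))).card := ⟨_, rfl⟩
    rw [← hb]
    have h4 : (s + 1).factorial * b.choose (s + 1) ≤ b ^ (s + 1) := by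
      rw [← Nat.descFactorial_eq_factorial_mul_choose]
      exact Nat.descFactorial_le_pow b (s + 1)
    have h5 : b ≤ Nat.totient W * (D / W + 1) := by
      have h6 : b ≤ ((Ico (ν + 1) (ν + 1 + D)).filter (fun x => Nat.Coprime W x)).card := by
        rw [hb]
        apply card_le_card_of_injOn (fun j => ν + j)
        · intro j hj
          rw [mem_coe, mem_filter, mem_Icc] at hj
          rw [mem_coe, mem_filter, mem_Ico]
          refine ⟨⟨?_, ?_⟩, hj.2⟩
          · show ν + 1 ≤ ν + j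
            omega
          · show ν + j < ν + 1 + D
            omega
        · intro i _ j _ hij
          simp only at hij
          omega
      exact h6.trans (Nat.Ico_filter_coprime_le (ν + 1) D hWpos.ne')
    have h7 : (b : ℝ) ≤ (Nat.totient W : ℝ) * (D / W + 1) := by
      calc (b : ℝ) ≤ ((Nat.totient W * (D / W + 1) : ℕ) : ℝ) := by exact_mod_cast h5
        _ = (Nat.totient W : ℝ) * (((D / W : ℕ) : ℝ) + 1) := by push_cast; ring
        _ ≤ _ := by
            apply mul_le_mul_of_nonneg_left _ hφ0.le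
            have := Nat.cast_div_le (α := ℝ) (m := D) (n := W)
            linarith
    calc _ = (((s + 1).factorial * b.choose (s + 1) : ℕ) : ℝ) := by push_cast; ring
      _ ≤ ((b ^ (s + 1) : ℕ) : ℝ) := by exact_mod_cast h4
      _ = (b : ℝ) ^ (s + 1) := by push_cast; ring
      _ ≤ _ := pow_le_pow_left₀ (Nat.cast_nonneg _) h7 _
  calc ((s + 1).factorial : ℝ) * ∑ T ∈ (Icc 1 D).powersetCard (s + 1), Uni.CT T
      ≤ ((s + 1).factorial : ℝ) * ∑ T ∈ (Icc 1 D).powersetCard (s + 1),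
        K ^ ((s + 1) * (s + 1)) * (((W : ℝ) / Nat.totient W) ^ (s + 1) * (Uni.gT W T / W)) :=
        mul_le_mul_of_nonneg_left (sum_le_sum h1) (by positivity)
    _ = K ^ ((s + 1) * (s + 1)) * (((W : ℝ) / Nat.totient W) ^ (s + 1) / W) * (((s + 1).factorial : ℝ) *
        ∑ T ∈ (Icc 1 D).powersetCard (s + 1), (Uni.gT W T : ℝ)) := by
        rw [← mul_sum, ← mul_sum, ← sum_div]
        ring
    _ ≤ K ^ ((s + 1) * (s + 1)) * (((W : ℝ) / Nat.totient W) ^ (s + 1) / W) *
        (W * ((Nat.totient W : ℝ) * (D / W + 1)) ^ (s + 1)) := by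
        apply mul_le_mul_of_nonneg_left _ (by positivity)
        rw [h2, mul_sum]
        calc _ ≤ ∑ _ν ∈ range W, ((Nat.totient W : ℝ) * (D / W + 1)) ^ (s + 1) := sum_le_sum h3
          _ = _ := by rw [sum_const, card_range, nsmul_eq_mul]
    _ = _ := by
        have h8 : (D : ℝ) + W = W * (D / W + 1) := by field_simp
        rw [h8, mul_pow, mul_pow, div_pow]
        field_simp

/-- **The average of the singular series.** -/
theorem gall (s : ℕ) (ε : ℝ) (hε : 0 < ε) : ∃ D₀ : ℕ, ∀ D : ℕ, D₀ ≤ D →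
    ((s + 1).factorial : ℝ) * ∑ T ∈ (Icc 1 D).powersetCard (s + 1), Uni.CT T ≤ (1 + ε) * (D : ℝ) ^ (s + 1) := by
  have tD : Tendsto (fun D : ℕ => (D : ℝ)) atTop atTop := tendsto_natCast_atTop_atTop
  have tL : Tendsto (fun D : ℕ => Real.log (D : ℝ) / 4) atTop atTop :=
    (Real.tendsto_log_atTop.comp tD).atTop_div_const (by norm_num)
  have ty : Tendsto (fun D : ℕ => ⌊Real.log (D : ℝ) / 4⌋₊) atTop atTop := tendsto_nat_floor_atTop.comp tL
  have tly : Tendsto (fun D : ℕ => Real.log ((⌊Real.log (D : ℝ) / 4⌋₊ : ℕ) : ℝ)) atTop atTop :=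
    Real.tendsto_log_atTop.comp (tendsto_natCast_atTop_atTop.comp ty)
  have t1 : Tendsto (fun D : ℕ => Real.exp (16 / Real.log ((⌊Real.log (D : ℝ) / 4⌋₊ : ℕ) : ℝ)) ^ ((s + 1) * (s + 1)) *
      (1 + ((D : ℝ) ^ (1 / 2 : ℝ))⁻¹) ^ (s + 1)) atTop (𝓝 (Real.exp 0 ^ ((s + 1) * (s + 1)) * (1 + 0) ^ (s + 1))) := by
    apply Tendsto.mul
    · apply Tendsto.pow
      apply (Real.continuous_exp.tendsto 0).comp
      exact tly.const_div_atTop 16
    · apply Tendsto.pow
      apply Tendsto.const_add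
      exact ((tendsto_rpow_atTop (by norm_num : (0 : ℝ) < 1 / 2)).comp tD).inv_tendsto_atTop
  have h1 : Real.exp 0 ^ ((s + 1) * (s + 1)) * (1 + 0) ^ (s + 1) < 1 + ε := by
    simp; exact hε
  have hev := t1.eventually_lt_const h1
  rw [← eventually_atTop]
  filter_upwards [hev, ty.eventually_ge_atTop 2, eventually_ge_atTop 1] with D h2 h3 h4
  obtain ⟨y, hy⟩ : ∃ y : ℕ, y = ⌊Real.log (D : ℝ) / 4⌋₊ := ⟨_, rfl⟩
  rw [← hy] at h2 h3
  have hD1 : (1 : ℝ) ≤ D := by exact_mod_cast h4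
  have hD0 : (0 : ℝ) < D := by linarith
  have hL0 : 0 ≤ Real.log (D : ℝ) := Real.log_nonneg hD1
  have hy2 : (2 : ℝ) ≤ y := by exact_mod_cast h3
  have hlogy : 0 < Real.log y := Real.log_pos (by linarith)
  have hyL : (y : ℝ) ≤ Real.log D / 4 := by rw [hy]; exact Nat.floor_le (by positivity)
  have hyL2 : Real.log D ≤ 8 * y := by
    have : Real.log D / 4 < y + 1 := by rw [hy]; exact Nat.lt_floor_add_one _
    linarith
  have hK1 : 1 ≤ Real.exp (16 / Real.log y) := Real.one_le_exp (by positivity)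
  refine (gall_aux s y D hK1 ?_).trans ?_
  · intro n hn1 hn2
    refine (Uni.tt_le y n h3 hn1).trans (Real.exp_le_exp.2 ?_)
    rw [div_le_div_iff₀ (by positivity) hlogy]
    have h5 : Real.log n ≤ Real.log D := Real.log_le_log (by exact_mod_cast hn1) (by exact_mod_cast hn2)
    have h6 : 2 * Real.log n ≤ 16 * y := by linarith
    calc 2 * Real.log n * Real.log y ≤ 16 * y * Real.log y := mul_le_mul_of_nonneg_right h6 hlogy.le
      _ = _ := by ring
  · have hW : ((Uni.WW y : ℕ) : ℝ) ≤ (D : ℝ) * ((D : ℝ) ^ (1 / 2 : ℝ))⁻¹ := by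
      have h5 : (D : ℝ) * ((D : ℝ) ^ (1 / 2 : ℝ))⁻¹ = (D : ℝ) ^ (1 / 2 : ℝ) := by
        rw [← div_eq_mul_inv, div_eq_iff (by positivity), ← Real.rpow_add hD0]
        norm_num
      rw [h5]
      calc ((Uni.WW y : ℕ) : ℝ) ≤ ((4 ^ y : ℕ) : ℝ) := by exact_mod_cast WW_le y
        _ = (4 : ℝ) ^ y := by push_cast; rfl
        _ ≤ (Real.exp 2) ^ y := by
            apply pow_le_pow_left₀ (by norm_num)
            have h3 := Real.exp_one_gt_d9
            have h4 : Real.exp 2 = Real.exp 1 ^ 2 := by rw [← Real.exp_nat_mul]; norm_num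
            rw [h4]
            calc (4 : ℝ) ≤ 2.7182818283 ^ 2 := by norm_num
              _ ≤ _ := by gcongr
        _ = Real.exp (y * 2) := by rw [← Real.exp_nat_mul]
        _ ≤ Real.exp (Real.log D * (1 / 2)) := Real.exp_le_exp.2 (by linarith)
        _ = _ := by rw [Real.rpow_def_of_pos hD0]
    have h5 : (D : ℝ) + Uni.WW y ≤ D * (1 + ((D : ℝ) ^ (1 / 2 : ℝ))⁻¹) := by
      rw [mul_add, mul_one]
      linarith
    calc Real.exp (16 / Real.log y) ^ ((s + 1) * (s + 1)) * ((D : ℝ) + Uni.WW y) ^ (s + 1) ≤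
        Real.exp (16 / Real.log y) ^ ((s + 1) * (s + 1)) * (D * (1 + ((D : ℝ) ^ (1 / 2 : ℝ))⁻¹)) ^ (s + 1) := by
          apply mul_le_mul_of_nonneg_left _ (by positivity)
          exact pow_le_pow_left₀ (by positivity) h5 _
      _ = (Real.exp (16 / Real.log y) ^ ((s + 1) * (s + 1)) * (1 + ((D : ℝ) ^ (1 / 2 : ℝ))⁻¹) ^ (s + 1)) *
          (D : ℝ) ^ (s + 1) := by rw [mul_pow]; ring
      _ ≤ _ := mul_le_mul_of_nonneg_right h2.le (by positivity)

end Pool.Agent.Helper22K9.Trp
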