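import Pool.Agent.H387R2.U2

/-!
# The singular series and its truncations
(helper22)
-/

set_option autoImplicit false

namespace Pool.Agent.Helper22K9.Trp

open Finset Filter Topology Pool.Agent.H387R2 Pool.Agent.H386R2.HL

lemma prod_ge {ι : Type*} (s : Finset ι) (x : ι → ℝ) (h0 : ∀ i ∈ s, 0 ≤ x i) (h1 : ∀ i ∈ s, x i ≤ 1) :
    1 - ∑ i ∈ s, x i ≤ ∏ i ∈ s, (1 - x i) := by
  classical
  induction s using Finset.induction_on with
  | empty => simp
  | insert a s ha ih =>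
    rw [sum_insert ha, prod_insert ha]
    have ih' := ih (fun i hi => h0 i (mem_insert_of_mem hi)) (fun i hi => h1 i (mem_insert_of_mem hi))
    have ha0 := h0 a (mem_insert_self a s)
    have ha1 := h1 a (mem_insert_self a s)
    have hs0 : 0 ≤ ∑ i ∈ s, x i := sum_nonneg fun i hi => h0 i (mem_insert_of_mem hi)
    have h2 : (1 - x a) * (1 - ∑ i ∈ s, x i) ≤ (1 - x a) * ∏ i ∈ s, (1 - x i) :=
      mul_le_mul_of_nonneg_left ih' (by linarith)
    nlinarith [mul_nonneg ha0 hs0]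

lemma locT_nonneg (T : Finset ℕ) {p : ℕ} (hp : p.Prime) : 0 ≤ Uni.locT T p := by
  rw [← Uni.loc_en]; exact localFactor_nonneg (Uni.en T) hp

lemma nuT_le (T : Finset ℕ) (p : ℕ) : Uni.nuT T p ≤ T.card := card_image_le

lemma locT_ge (T : Finset ℕ) {p : ℕ} (hp : 2 ≤ p) (hTp : T.card ≤ p) :
    1 - (T.card : ℝ) ^ 2 * ((p : ℝ) ^ 2)⁻¹ ≤ Uni.locT T p := by
  unfold Uni.locT
  obtain ⟨r, hr⟩ : ∃ r, r = T.card := ⟨_, rfl⟩
  rw [← hr] at hTp ⊢
  have hp0 : (0:ℝ) < p := by exact_mod_cast (by omega : 0 < p)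
  have hp2 : (2:ℝ) ≤ p := by exact_mod_cast hp
  obtain ⟨x, hx⟩ : ∃ x : ℝ, x = 1 / p := ⟨_, rfl⟩
  rw [← hx]
  have hx0 : 0 < x := by rw [hx]; positivity
  have hx1 : x ≤ 1 / 2 := by rw [hx]; exact one_div_le_one_div_of_le (by norm_num) hp2
  have hrx : (r:ℝ) * x ≤ 1 := by
    rw [hx, mul_one_div, div_le_one hp0]
    exact_mod_cast hTp
  have h1 : (1 - x) ^ r * (1 + r * x) ≤ 1 := by
    have h2 : 1 + (r:ℝ) * x ≤ (1 + x) ^ r := one_add_mul_le_pow (by linarith) r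
    calc (1 - x) ^ r * (1 + r * x) ≤ (1 - x) ^ r * (1 + x) ^ r :=
          mul_le_mul_of_nonneg_left h2 (pow_nonneg (by linarith) _)
      _ = ((1 - x) * (1 + x)) ^ r := by rw [mul_pow]
      _ ≤ 1 := pow_le_one₀ (mul_nonneg (by linarith) (by linarith)) (by nlinarith)
  have h2 : 0 < (1 - x) ^ r := pow_pos (by linarith) _
  rw [le_div_iff₀ h2]
  have h3 : (Uni.nuT T p : ℝ) / p ≤ r * x := by
    rw [hx, mul_one_div]
    apply div_le_div_of_nonneg_right _ hp0.le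
    rw [hr]
    exact_mod_cast nuT_le T p
  have h4 : 1 - (r:ℝ) ^ 2 * ((p : ℝ) ^ 2)⁻¹ = (1 - r * x) * (1 + r * x) := by
    rw [hx]; field_simp; ring
  rw [h4]
  calc (1 - r * x) * (1 + r * x) * (1 - x) ^ r = (1 - r * x) * ((1 - x) ^ r * (1 + r * x)) := by ring
    _ ≤ (1 - r * x) * 1 := mul_le_mul_of_nonneg_left h1 (by linarith)
    _ ≤ 1 - (Uni.nuT T p : ℝ) / p := by linarith

lemma sum_inv_sq_gt {y : ℕ} (hy : 1 ≤ y) (S : Finset ℕ) (hS : ∀ p ∈ S, y < p) :
    ∑ p ∈ S, ((p:ℝ) ^ 2)⁻¹ ≤ 1 / y := by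
  have hy0 : (0:ℝ) < y := by exact_mod_cast hy
  rcases S.eq_empty_or_nonempty with rfl | hne
  · simp
  · have hsub : S ⊆ Ioc y (S.sup id) := by
      intro p hp
      rw [mem_Ioc]
      exact ⟨hS p hp, le_sup (f := id) hp⟩
    have hle : y ≤ S.sup id := by
      obtain ⟨p, hp⟩ := hne
      have := mem_Ioc.1 (hsub hp)
      omega
    have h1 := sum_Ioc_inv_sq_le_sub (α := ℝ) (by omega : y ≠ 0) hle
    refine (sum_le_sum_of_subset_of_nonneg hsub fun i _ _ => by positivity).trans (h1.trans ?_)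
    have : (0:ℝ) ≤ ((S.sup id : ℕ) : ℝ)⁻¹ := by positivity
    rw [one_div]
    linarith

/-- a prime below `y + 1` as an element of the type of primes -/
def mkP (y : ℕ) (p : {x : ℕ // x ∈ (y + 1).primesBelow}) : Nat.Primes := ⟨p.1, Nat.prime_of_mem_primesBelow p.2⟩

/-- the underlying natural number -/
def toN (p : Nat.Primes) : ℕ := (p : ℕ)

lemma toN_inj : Function.Injective toN := fun _ _ h => Nat.Primes.coe_nat_injective h

/-- lower bound of the singular series by a count of residues -/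
theorem CT_ge' (T : Finset ℕ) (y : ℕ) (hy : 1 ≤ y) (hTy : T.card ≤ y) :
    (1 - (T.card : ℝ) ^ 2 / y) * (((Uni.WW y : ℝ) / Nat.totient (Uni.WW y)) ^ T.card *
      (Uni.gT (Uni.WW y) T / Uni.WW y)) ≤ Uni.CT T := by
  classical
  rw [← Uni.sy_en]
  have hprod := Uni.CT_hasProd T
  rw [HasProd] at hprod
  obtain ⟨F0, hF0⟩ : ∃ F0 : Finset Nat.Primes, F0 = ((y + 1).primesBelow).attach.image (mkP y) := ⟨_, rfl⟩
  have hmem : ∀ p : Nat.Primes, p ∈ F0 ↔ (p : ℕ) ∈ (y + 1).primesBelow := by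
    intro p
    rw [hF0, mem_image]
    constructor
    · rintro ⟨a, _, rfl⟩
      exact a.2
    · intro h
      exact ⟨⟨p, h⟩, mem_attach _ _, rfl⟩
  have hy0 : (0:ℝ) < y := by exact_mod_cast hy
  have hF0' : ∏ p ∈ F0, Uni.locT T p = sy (Uni.en T) y := by
    unfold sy
    rw [hF0, prod_image]
    · rw [← prod_attach ((y + 1).primesBelow)]
      apply prod_congr rfl
      intro p _
      rw [Uni.loc_en]
      rfl
    · intro a _ b _ hab
      have h9 : (a : ℕ) = b := congrArg (fun p : Nat.Primes => (p : ℕ)) hab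
      exact Subtype.ext h9
  refine ge_of_tendsto hprod ?_
  filter_upwards [eventually_ge_atTop F0] with F hF
  have hF' : F0 ⊆ F := hF
  rw [← prod_sdiff hF']
  have h1 : 1 - (T.card : ℝ) ^ 2 / y ≤ ∏ p ∈ F \ F0, Uni.locT T p := by
    have hbig : ∀ p ∈ F \ F0, y < (p : ℕ) := by
      intro p hp
      rw [Finset.mem_sdiff, hmem, Nat.mem_primesBelow] at hp
      by_contra h
      exact hp.2 ⟨by omega, p.2⟩
    have hr : ∀ p ∈ F \ F0, T.card ≤ (p : ℕ) := by
      intro p hp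
      have := hbig p hp
      omega
    have hsum : ∑ p ∈ F \ F0, (T.card : ℝ) ^ 2 * (((p : ℕ) : ℝ) ^ 2)⁻¹ ≤ (T.card : ℝ) ^ 2 / y := by
      rw [← mul_sum]
      have h2 : ∑ p ∈ F \ F0, (((p : ℕ) : ℝ) ^ 2)⁻¹ ≤ 1 / y := by
        have h3 := sum_inv_sq_gt hy ((F \ F0).image toN) (by
          intro p hp
          rw [mem_image] at hp
          obtain ⟨p', hp', rfl⟩ := hp
          exact hbig p' hp')
        rw [sum_image (fun a _ b _ hab => toN_inj hab)] at h3
        exact h3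
      calc (T.card : ℝ) ^ 2 * ∑ p ∈ F \ F0, (((p : ℕ) : ℝ) ^ 2)⁻¹ ≤ (T.card : ℝ) ^ 2 * (1 / y) := by gcongr
        _ = _ := by rw [mul_one_div]
    have h2 := prod_ge (F \ F0) (fun p => (T.card : ℝ) ^ 2 * (((p : ℕ) : ℝ) ^ 2)⁻¹)
      (fun p _ => by positivity) (fun p hp => by
        have h3 : (T.card : ℝ) ≤ ((p : ℕ) : ℝ) := by exact_mod_cast hr p hp
        have h4 : (0:ℝ) < ((p : ℕ) : ℝ) := by exact_mod_cast p.2.pos
        rw [← div_eq_mul_inv, div_le_one (by positivity)]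
        exact pow_le_pow_left₀ (Nat.cast_nonneg _) h3 2)
    have h3 : ∏ p ∈ F \ F0, (1 - (T.card : ℝ) ^ 2 * (((p : ℕ) : ℝ) ^ 2)⁻¹) ≤ ∏ p ∈ F \ F0, Uni.locT T p := by
      apply Finset.prod_le_prod
      · intro p hp
        have h3 : (T.card : ℝ) ≤ ((p : ℕ) : ℝ) := by exact_mod_cast hr p hp
        have h4 : (0:ℝ) < ((p : ℕ) : ℝ) := by exact_mod_cast p.2.pos
        rw [sub_nonneg, ← div_eq_mul_inv, div_le_one (by positivity)]
        exact pow_le_pow_left₀ (Nat.cast_nonneg _) h3 2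
      · intro p hp
        exact locT_ge T p.2.two_le (hr p hp)
    linarith
  have h2 := sy_nonneg (Uni.en T) y
  rw [hF0']
  exact mul_le_mul_of_nonneg_right h1 h2

/-- the residues for one shift -/
lemma card_cop (W a : ℕ) : ((range W).filter (fun m => Nat.Coprime W (m + a))).card = Nat.totient W := by
  have h := Nat.filter_coprime_Ico_eq_totient W a
  rw [← h]
  refine card_bij (fun m _ => m + a) ?_ ?_ ?_
  · intro m hm
    rw [mem_filter, mem_range] at hm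
    rw [mem_filter, mem_Ico]
    exact ⟨⟨by omega, by omega⟩, hm.2⟩
  · intro m _ m' _ h; omega
  · intro b hb
    rw [mem_filter, mem_Ico] at hb
    exact ⟨b - a, by rw [mem_filter, mem_range]; exact ⟨by omega, by
      rw [Nat.sub_add_cancel hb.1.1]; exact hb.2⟩, by omega⟩

end Pool.Agent.Helper22K9.Trp
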