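import Pool.Agent.Helper22K9.Trp.Tri

/-!
# The pairs `(d', d)` with `d ≤ D`
(helper22)
-/

set_option autoImplicit false

namespace Pool.Agent.Helper22K9.Trp

open Finset Filter Topology Pool.Agent.H387R2 Pool.Agent.H386R2.HL

/-- the pairs of even numbers `2 ≤ d' < d ≤ D` -/
def prs (D : ℕ) : Finset (ℕ × ℕ) :=
  (Icc 2 D ×ˢ Icc 2 D).filter (fun v => Even v.1 ∧ Even v.2 ∧ v.1 < v.2)

/-- the pair of differences of a triple -/
def df (u : ℕ × ℕ × ℕ) : ℕ × ℕ := (u.2.2 - u.2.1, u.2.2 - u.1)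

lemma card_fib {D : ℕ} {v : ℕ × ℕ} (hv : v ∈ prs D) :
    ((tri (Icc 1 D)).filter (fun u => df u = v)).card = D - v.2 := by
  obtain ⟨d', d⟩ := v
  unfold prs at hv
  rw [mem_filter, mem_product, mem_Icc, mem_Icc] at hv
  simp only at hv
  obtain ⟨⟨h1, h2⟩, -, -, h3⟩ := hv
  have h4 : (Icc 1 (D - d)).card = D - d := by simp
  show _ = D - d
  rw [← h4]
  symm
  refine card_bij (fun a _ => (a, a + (d - d'), a + d)) ?_ ?_ ?_
  · intro a ha
    rw [mem_Icc] at ha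
    unfold tri df
    rw [mem_filter, mem_filter, mem_product, mem_product, mem_Icc, mem_Icc, mem_Icc]
    simp only
    refine ⟨⟨⟨⟨by omega, by omega⟩, ⟨by omega, by omega⟩, ⟨by omega, by omega⟩⟩, by omega, by omega⟩, ?_⟩
    rw [Prod.mk.injEq]
    constructor <;> omega
  · intro a _ b _ h
    exact (Prod.mk.inj h).1
  · rintro ⟨a, b, c⟩ hu
    unfold tri df at hu
    rw [mem_filter, mem_filter, mem_product, mem_product, mem_Icc, mem_Icc, mem_Icc] at hu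
    simp only at hu
    obtain ⟨⟨⟨⟨ha1, ha2⟩, ⟨hb1, hb2⟩, ⟨hc1, hc2⟩⟩, hab, hbc⟩, hd⟩ := hu
    rw [Prod.mk.injEq] at hd
    refine ⟨a, mem_Icc.2 ⟨ha1, by omega⟩, ?_⟩
    rw [Prod.mk.injEq, Prod.mk.injEq]
    refine ⟨rfl, by omega, by omega⟩

/-- from triples to pairs -/
lemma sum_fib (D : ℕ) (h : ℕ × ℕ → ℝ) (hh : ∀ u ∈ tri (Icc 1 D), h (df u) ≠ 0 → Even (df u).1 ∧ Even (df u).2) :
    ∑ u ∈ tri (Icc 1 D), h (df u) = ∑ v ∈ prs D, ((D : ℝ) - v.2) * h v := by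
  have h1 : ∑ u ∈ tri (Icc 1 D), h (df u) = ∑ u ∈ (tri (Icc 1 D)).filter (fun u => df u ∈ prs D), h (df u) := by
    rw [sum_filter]
    refine sum_congr rfl fun u hu => ?_
    split_ifs with g
    · rfl
    · by_contra hne
      apply g
      have he := hh u hu hne
      obtain ⟨a, b, c⟩ := u
      unfold tri at hu
      rw [mem_filter, mem_product, mem_product, mem_Icc, mem_Icc, mem_Icc] at hu
      simp only at hu
      obtain ⟨⟨⟨ha1, ha2⟩, ⟨hb1, hb2⟩, ⟨hc1, hc2⟩⟩, hab, hbc⟩ := hu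
      unfold df at he ⊢
      simp only at he
      unfold prs
      rw [mem_filter, mem_product, mem_Icc, mem_Icc]
      simp only
      obtain ⟨e1, e2⟩ := he
      rw [Nat.even_iff] at e1 e2
      refine ⟨⟨⟨by omega, by omega⟩, ⟨by omega, by omega⟩⟩, Nat.even_iff.2 e1, Nat.even_iff.2 e2, by omega⟩
  rw [h1, ← sum_fiberwise_of_maps_to (g := df) (t := prs D) (fun u hu => (mem_filter.1 hu).2)]
  refine sum_congr rfl fun v hv => ?_
  have h2 : ((tri (Icc 1 D)).filter (fun u => df u ∈ prs D)).filter (fun u => df u = v) =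
      (tri (Icc 1 D)).filter (fun u => df u = v) := by
    rw [filter_filter]
    refine filter_congr fun u _ => ?_
    constructor
    · exact fun h => h.2
    · intro h; exact ⟨by rw [h]; exact hv, h⟩
  rw [h2]
  have h3 : ∑ u ∈ (tri (Icc 1 D)).filter (fun u => df u = v), h (df u) =
      ∑ _u ∈ (tri (Icc 1 D)).filter (fun u => df u = v), h v :=
    sum_congr rfl fun u hu => by rw [(mem_filter.1 hu).2]
  rw [h3, sum_const, card_fib hv, nsmul_eq_mul, Nat.cast_sub]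
  unfold prs at hv
  rw [mem_filter, mem_product, mem_Icc, mem_Icc] at hv
  exact hv.1.2.2

open Classical in
/-- the good pairs -/
noncomputable def gprs (x η : ℝ) (D : ℕ) : Finset (ℕ × ℕ) :=
  (prs D).filter (fun v => x ^ (1 - η) ≤ (pi3 x v.1 v.2 : ℝ))

open Classical in
/-- **The proportion of the good pairs.** -/
theorem prop (ε : ℝ) (hε : 0 < ε) : ∃ N₀ : ℕ, ∀ η : ℝ, 0 < η → ∃ X : ℝ, ∀ x : ℝ, X ≤ x →
    ∀ D : ℕ, N₀ ≤ D → (D : ℝ) ^ 2 ≤ x →
    (1 / 21 - ε) * ∑ v ∈ prs D, ((D : ℝ) - v.2) * S3 v.1 v.2 ≤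
      ∑ v ∈ gprs x η D, ((D : ℝ) - v.2) * S3 v.1 v.2 := by
  obtain ⟨ε₁, hε₁⟩ : ∃ ε₁ : ℝ, ε₁ = min (ε / 3) (1 / 42) := ⟨_, rfl⟩
  have hε₁0 : 0 < ε₁ := by rw [hε₁]; positivity
  have hε₁1 : ε₁ ≤ ε / 3 := by rw [hε₁]; exact min_le_left _ _
  have hε₁2 : ε₁ ≤ 1 / 42 := by rw [hε₁]; exact min_le_right _ _
  obtain ⟨N₀, h⟩ := trip ε₁ hε₁0
  obtain ⟨N₁, h'⟩ := gall 2 ε₁ hε₁0
  refine ⟨max (max N₀ N₁) 1, fun η hη => ?_⟩
  obtain ⟨X, h⟩ := h η hη
  refine ⟨X, fun x hx D hD hDx => ?_⟩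
  have hD0 : N₀ ≤ D := ((le_max_left _ _).trans (le_max_left _ _)).trans hD
  have hD1 : N₁ ≤ D := ((le_max_right _ _).trans (le_max_left _ _)).trans hD
  have k1 := h x hx (Icc 1 D) (by simpa using hD0) (fun a ha => by
    rw [mem_Icc] at ha
    have : (a : ℝ) ≤ D := by exact_mod_cast ha.2
    have h0 : (0 : ℝ) ≤ a := Nat.cast_nonneg a
    nlinarith)
  have hcard : (Icc 1 D).card = D := by simp
  rw [hcard] at k1
  -- the good triples
  have k2 : ∑ u ∈ gtri x η (Icc 1 D), S3 (u.2.2 - u.2.1) (u.2.2 - u.1) =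
      ∑ v ∈ gprs x η D, ((D : ℝ) - v.2) * S3 v.1 v.2 := by
    have e1 : gtri x η (Icc 1 D) = (tri (Icc 1 D)).filter
        (fun u => x ^ (1 - η) ≤ (pi3 x (u.2.2 - u.2.1) (u.2.2 - u.1) : ℝ)) := by
      unfold gtri tri
      rw [filter_filter]
      refine filter_congr fun u _ => ?_
      tauto
    rw [e1, sum_filter]
    have e2 := sum_fib D (fun v => if x ^ (1 - η) ≤ (pi3 x v.1 v.2 : ℝ) then S3 v.1 v.2 else 0) (by
      intro u hu hne
      unfold tri at hu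
      rw [mem_filter] at hu
      obtain ⟨-, hab, hbc⟩ := hu
      have hne2 : S3 (df u).1 (df u).2 ≠ 0 := by
        intro h0
        apply hne
        simp only [h0, ite_self]
      exact S3_even hab hbc hne2)
    unfold gprs
    rw [sum_filter]
    refine e2.trans (sum_congr rfl fun v _ => ?_)
    split_ifs
    · rfl
    · rw [mul_zero]
  have k3 : ∑ T ∈ (Icc 1 D).powersetCard 3, Uni.CT T = ∑ v ∈ prs D, ((D : ℝ) - v.2) * S3 v.1 v.2 := by
    rw [sum_three (Icc 1 D) (fun T => Uni.CT T)]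
    rw [← sum_fib D (fun v => S3 v.1 v.2) (by
      intro u hu hne
      unfold tri at hu
      rw [mem_filter] at hu
      obtain ⟨-, hab, hbc⟩ := hu
      exact S3_even hab hbc hne)]
    refine sum_congr rfl fun u hu => ?_
    unfold tri at hu
    rw [mem_filter] at hu
    obtain ⟨-, hab, hbc⟩ := hu
    exact (S3_eq hab hbc).symm
  have k4 := h' D hD1
  have e2 : ((2 + 1).factorial : ℝ) = 6 := by norm_num [Nat.factorial]
  have e3 : (2 + 1 : ℕ) = 3 := rfl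
  rw [e2, e3, k3] at k4
  rw [k2] at k1
  obtain ⟨Q, hQ⟩ : ∃ Q : ℝ, Q = ∑ v ∈ prs D, ((D : ℝ) - v.2) * S3 v.1 v.2 := ⟨_, rfl⟩
  rw [← hQ] at k4 ⊢
  have hQ0 : 0 ≤ Q := by
    rw [hQ, ← k3]
    exact sum_nonneg fun T _ => Uni.CT_nonneg T
  have hD3 : (0 : ℝ) ≤ (D : ℝ) ^ 3 := by positivity
  refine le_trans ?_ k1
  -- `Q ≤ (1 + ε₁) D ^ 3 / 6`
  have k5 : Q ≤ (1 + ε₁) * ((D : ℝ) ^ 3 / 6) := by linarith
  rcases le_or_gt (1 / 21 - ε) 0 with hc | hc
  · have h1 : (1 / 21 - ε) * Q ≤ 0 := mul_nonpos_of_nonpos_of_nonneg hc hQ0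
    have h2 : 0 ≤ (1 / 21 - ε₁) * ((D : ℝ) ^ 3 / 6) := mul_nonneg (by linarith) (by positivity)
    linarith
  · calc (1 / 21 - ε) * Q ≤ (1 / 21 - ε) * ((1 + ε₁) * ((D : ℝ) ^ 3 / 6)) := mul_le_mul_of_nonneg_left k5 hc.le
      _ = ((1 / 21 - ε) * (1 + ε₁)) * ((D : ℝ) ^ 3 / 6) := by ring
      _ ≤ _ := by
          apply mul_le_mul_of_nonneg_right _ (by positivity)
          nlinarith

end Pool.Agent.Helper22K9.Trp
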