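import Pool.Agent.Helper22K9.Trp.Mass
import Pool.Agent.Helper22K9.Trp.Gall

/-!
# Triples
(helper22)
-/

set_option autoImplicit false

namespace Pool.Agent.Helper22K9.Trp

open Finset Filter Topology Pool.Agent.H387R2 Pool.Agent.H386R2.HL

/-- the singular series of `{0, d', d}` -/
noncomputable def S3 (d' d : ℕ) : ℝ := ∏' p : Nat.Primes,
  ((1 - ((((({0, d', d} : Finset ℕ).image (fun n => n % (p : ℕ))).card : ℕ) : ℝ) / ((p : ℕ) : ℝ)))
    / (1 - 1 / ((p : ℕ) : ℝ)) ^ 3)

/-- the number of primes `p ≤ x` with `p - d`, `p - d'` prime -/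
noncomputable def pi3 (x : ℝ) (d' d : ℕ) : ℕ :=
  ((range (⌊x⌋₊ + 1)).filter (fun p => p.Prime ∧ (p - d).Prime ∧ (p - d').Prime)).card

lemma card_image_congr {T : Finset ℕ} {f g : ℕ → ℕ} (h : ∀ s ∈ T, ∀ t ∈ T, f s = f t → g s = g t) :
    (T.image g).card ≤ (T.image f).card := by
  classical
  have hex : ∀ u ∈ T.image f, ∃ t ∈ T, f t = u := fun u hu => mem_image.1 hu
  choose! pre hpre1 hpre2 using hex
  have hsub : T.image g ⊆ (T.image f).image (fun u => g (pre u)) := by
    intro v hv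
    obtain ⟨t, ht, rfl⟩ := mem_image.1 hv
    rw [mem_image]
    refine ⟨f t, mem_image_of_mem f ht, ?_⟩
    have h1 := hpre1 (f t) (mem_image_of_mem f ht)
    have h2 := hpre2 (f t) (mem_image_of_mem f ht)
    exact h _ h1 _ ht h2
  exact (card_le_card hsub).trans card_image_le

lemma nu_refl {a b c : ℕ} (hab : a < b) (hbc : b < c) (p : ℕ) :
    Uni.nuT {a, b, c} p = (({0, c - b, c - a} : Finset ℕ).image (fun n => n % p)).card := by
  have e : ({0, c - b, c - a} : Finset ℕ) = ({a, b, c} : Finset ℕ).image (fun t => c - t) := by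
    rw [image_insert, image_insert, image_singleton, Nat.sub_self]
    ext t; simp only [mem_insert, mem_singleton]; tauto
  rw [e, image_image]
  unfold Uni.nuT
  have hle : ∀ t ∈ ({a, b, c} : Finset ℕ), t ≤ c := by
    intro t ht
    simp only [mem_insert, mem_singleton] at ht
    omega
  apply le_antisymm
  · apply card_image_congr
    intro s hs t ht h
    simp only [Function.comp] at h
    have h1 : s + (c - s) = t + (c - t) := by
      have := hle s hs; have := hle t ht; omega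
    exact Nat.ModEq.add_right_cancel (show (c - s) ≡ (c - t) [MOD p] from h) (by rw [h1])
  · apply card_image_congr
    intro s hs t ht h
    simp only [Function.comp]
    have h1 : s + (c - s) = t + (c - t) := by
      have := hle s hs; have := hle t ht; omega
    exact Nat.ModEq.add_left_cancel (show s ≡ t [MOD p] from h) (by rw [h1])

lemma card_trip {a b c : ℕ} (hab : a < b) (hbc : b < c) : ({a, b, c} : Finset ℕ).card = 3 :=
  card_eq_three.2 ⟨a, b, c, hab.ne, (hab.trans hbc).ne, hbc.ne, rfl⟩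

lemma S3_eq {a b c : ℕ} (hab : a < b) (hbc : b < c) : S3 (c - b) (c - a) = Uni.CT {a, b, c} := by
  unfold S3 Uni.CT Uni.locT
  simp_rw [nu_refl hab hbc, card_trip hab hbc]

/-- every `3`-element set is an increasing triple -/
lemma sorted3 {T : Finset ℕ} (hT : T.card = 3) : ∃ a b c : ℕ, a < b ∧ b < c ∧ T = {a, b, c} := by
  obtain ⟨x, y, z, hxy, hxz, hyz, rfl⟩ := card_eq_three.1 hT
  rcases lt_or_gt_of_ne hxy with h1 | h1 <;> rcases lt_or_gt_of_ne hxz with h2 | h2 <;>
    rcases lt_or_gt_of_ne hyz with h3 | h3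
  · exact ⟨x, y, z, h1, h3, rfl⟩
  · refine ⟨x, z, y, h2, h3, ?_⟩
    ext t; simp only [mem_insert, mem_singleton]; tauto
  · omega
  · refine ⟨z, x, y, h2, h1, ?_⟩
    ext t; simp only [mem_insert, mem_singleton]; tauto
  · refine ⟨y, x, z, h1, h2, ?_⟩
    ext t; simp only [mem_insert, mem_singleton]; tauto
  · omega
  · refine ⟨y, z, x, h3, h2, ?_⟩
    ext t; simp only [mem_insert, mem_singleton]; tauto
  · refine ⟨z, y, x, h3, h1, ?_⟩
    ext t; simp only [mem_insert, mem_singleton]; tauto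

/-- the increasing triples of `A` -/
def tri (A : Finset ℕ) : Finset (ℕ × ℕ × ℕ) :=
  (A ×ˢ A ×ˢ A).filter (fun u => u.1 < u.2.1 ∧ u.2.1 < u.2.2)

/-- the set of a triple -/
def st (u : ℕ × ℕ × ℕ) : Finset ℕ := {u.1, u.2.1, u.2.2}

lemma st_inj {u v : ℕ × ℕ × ℕ} (hu : u.1 < u.2.1 ∧ u.2.1 < u.2.2) (hv : v.1 < v.2.1 ∧ v.2.1 < v.2.2)
    (h : st u = st v) : u = v := by
  obtain ⟨a, b, c⟩ := u
  obtain ⟨a', b', c'⟩ := v
  simp only at hu hv
  unfold st at h
  simp only at h
  have h1 : ∀ t, t = a ∨ t = b ∨ t = c ↔ t = a' ∨ t = b' ∨ t = c' := by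
    intro t
    have := Finset.ext_iff.1 h t
    simpa only [mem_insert, mem_singleton] using this
  have e1 := (h1 a).1 (Or.inl rfl)
  have e2 := (h1 b).1 (Or.inr (Or.inl rfl))
  have e3 := (h1 c).1 (Or.inr (Or.inr rfl))
  have e4 := (h1 a').2 (Or.inl rfl)
  have e5 := (h1 b').2 (Or.inr (Or.inl rfl))
  have e6 := (h1 c').2 (Or.inr (Or.inr rfl))
  have : a = a' ∧ b = b' ∧ c = c' := by omega
  obtain ⟨rfl, rfl, rfl⟩ := this
  rfl

lemma powersetCard_three (A : Finset ℕ) : A.powersetCard 3 = (tri A).image st := by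
  ext T
  rw [mem_powersetCard, mem_image]
  constructor
  · rintro ⟨hT1, hT2⟩
    obtain ⟨a, b, c, hab, hbc, rfl⟩ := sorted3 hT2
    refine ⟨(a, b, c), ?_, rfl⟩
    unfold tri
    rw [mem_filter, mem_product, mem_product]
    refine ⟨⟨hT1 (by simp), hT1 (by simp), hT1 (by simp)⟩, hab, hbc⟩
  · rintro ⟨⟨a, b, c⟩, hu, rfl⟩
    unfold tri at hu
    rw [mem_filter, mem_product, mem_product] at hu
    obtain ⟨⟨ha, hb, hc⟩, hab, hbc⟩ := hu
    simp only at ha hb hc hab hbc
    refine ⟨?_, card_trip hab hbc⟩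
    intro t ht
    unfold st at ht
    simp only [mem_insert, mem_singleton] at ht
    rcases ht with rfl | rfl | rfl
    · exact ha
    · exact hb
    · exact hc

/-- sums over the `3`-element sets -/
lemma sum_three (A : Finset ℕ) (f : Finset ℕ → ℝ) :
    ∑ T ∈ A.powersetCard 3, f T = ∑ u ∈ tri A, f (st u) := by
  rw [powersetCard_three, sum_image]
  intro u hu v hv h
  unfold tri at hu hv
  rw [mem_coe, mem_filter] at hu hv
  exact st_inj hu.2 hv.2 h

lemma CT_zero {T : Finset ℕ} (h : Uni.nuT T 2 = 2) : Uni.CT T = 0 := by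
  refine le_antisymm ?_ (Uni.CT_nonneg T)
  rw [← Uni.CT_en]
  refine (singularSeries_le (Uni.en T) (Uni.en_inj T) 2).trans (le_of_eq ?_)
  have h1 : sy (Uni.en T) 2 = 0 := by
    unfold sy
    refine prod_eq_zero (i := 2) (Nat.mem_primesBelow.2 ⟨by norm_num, Nat.prime_two⟩) ?_
    rw [Uni.loc_en]
    unfold Uni.locT
    rw [h]
    norm_num
  rw [h1, zero_mul]

lemma S3_nonneg {a b c : ℕ} (hab : a < b) (hbc : b < c) : 0 ≤ S3 (c - b) (c - a) := by
  rw [S3_eq hab hbc]; exact Uni.CT_nonneg _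

/-- the singular series vanishes unless both differences are even -/
lemma S3_even {a b c : ℕ} (hab : a < b) (hbc : b < c) (h : S3 (c - b) (c - a) ≠ 0) :
    Even (c - b) ∧ Even (c - a) := by
  rw [S3_eq hab hbc] at h
  by_contra hcon
  apply h
  apply CT_zero
  apply le_antisymm
  · unfold Uni.nuT
    have : ({a, b, c} : Finset ℕ).image (· % 2) ⊆ range 2 := by
      intro t ht
      obtain ⟨s, -, rfl⟩ := mem_image.1 ht
      exact mem_range.2 (Nat.mod_lt _ (by norm_num))
    simpa using card_le_card this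
  · by_contra hlt
    push Not at hlt
    apply hcon
    unfold Uni.nuT at hlt
    have key : ∀ s ∈ ({a, b, c} : Finset ℕ), ∀ t ∈ ({a, b, c} : Finset ℕ), s % 2 = t % 2 := by
      have h3 : (({a, b, c} : Finset ℕ).image (· % 2)).card ≤ 1 := by omega
      rw [card_le_one] at h3
      intro s hs t ht
      exact h3 _ (mem_image_of_mem _ hs) _ (mem_image_of_mem _ ht)
    have k1 := key b (by simp) c (by simp)
    have k2 := key a (by simp) c (by simp)
    rw [Nat.even_iff, Nat.even_iff]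
    omega

/-- the counting functions -/
lemma cnt_le {a b c : ℕ} (hab : a < b) (hbc : b < c) (x : ℝ) :
    cnt {a, b, c} ⌊x⌋₊ ≤ pi3 x (c - b) (c - a) := by
  unfold cnt pi3
  refine card_le_card_of_injOn (fun n => n + c) ?_ ?_
  · intro n hn
    rw [coe_filter] at hn
    have h1 := hn.2
    have ha := h1 a (by simp)
    have hb := h1 b (by simp)
    have hc := h1 c (by simp)
    rw [coe_filter]
    refine ⟨?_, ?_, ?_, ?_⟩
    · show n + c ∈ range (⌊x⌋₊ + 1)
      rw [mem_range]; omega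
    · exact hc.1
    · have : n + c - (c - a) = n + a := by omega
      show (n + c - (c - a)).Prime
      rw [this]; exact ha.1
    · have : n + c - (c - b) = n + b := by omega
      show (n + c - (c - b)).Prime
      rw [this]; exact hb.1
  · intro n _ m _ h
    have h' : n + c = m + c := h
    omega

open Classical in
/-- the good triples of `A` -/
noncomputable def gtri (x η : ℝ) (A : Finset ℕ) : Finset (ℕ × ℕ × ℕ) :=
  (A ×ˢ A ×ˢ A).filter (fun u => u.1 < u.2.1 ∧ u.2.1 < u.2.2 ∧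
    x ^ (1 - η) ≤ (pi3 x (u.2.2 - u.2.1) (u.2.2 - u.1) : ℝ))

open Classical in
/-- **Triples of an arbitrary set.** -/
theorem trip (ε : ℝ) (hε : 0 < ε) : ∃ N₀ : ℕ, ∀ η : ℝ, 0 < η → ∃ X : ℝ, ∀ x : ℝ, X ≤ x →
    ∀ A : Finset ℕ, N₀ ≤ A.card → (∀ a ∈ A, (a : ℝ) ^ 2 ≤ x) →
    (1 / 21 - ε) * ((A.card : ℝ) ^ 3 / 6) ≤
      ∑ u ∈ gtri x η A, S3 (u.2.2 - u.2.1) (u.2.2 - u.1) := by
  obtain ⟨N₀, h⟩ := mass 2 (by norm_num) ε hε
  refine ⟨N₀, fun η hη => ?_⟩
  have h1 := h (η / 2) (by positivity)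
  rw [eventually_atTop] at h1
  obtain ⟨X₁, h1⟩ := h1
  -- the powers of `x` and of its integral part
  have h2 : ∀ᶠ x : ℝ in atTop, x ^ (1 - η) ≤ ((⌊x⌋₊ : ℕ) : ℝ) ^ (1 - η / 2) := by
    have t1 : Tendsto (fun x : ℝ => x ^ (η / 2)) atTop atTop := tendsto_rpow_atTop (by positivity)
    have t2 : Tendsto (fun x : ℝ => ((⌊x⌋₊ : ℕ) : ℝ)) atTop atTop :=
      tendsto_natCast_atTop_atTop.comp tendsto_nat_floor_atTop
    rcases le_or_gt (1 - η / 2) 0 with hcase | hcase
    · filter_upwards [t1.eventually_ge_atTop 1, eventually_ge_atTop (1 : ℝ),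
        tendsto_nat_floor_atTop.eventually_ge_atTop 1] with x hx hx1 hx2
      have hx0 : 0 < x := by linarith
      have hf0 : (0 : ℝ) < ((⌊x⌋₊ : ℕ) : ℝ) := by exact_mod_cast hx2
      calc x ^ (1 - η) = x ^ (1 - η / 2) * x ^ (-(η / 2)) := by rw [← Real.rpow_add hx0]; ring_nf
        _ ≤ x ^ (1 - η / 2) * 1 := by
            apply mul_le_mul_of_nonneg_left _ (by positivity)
            exact Real.rpow_le_one_of_one_le_of_nonpos hx1 (by linarith)
        _ = x ^ (1 - η / 2) := mul_one _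
        _ ≤ _ := Real.rpow_le_rpow_of_nonpos hf0 (Nat.floor_le hx0.le) hcase
    · filter_upwards [t1.eventually_ge_atTop ((2 : ℝ) ^ (1 - η / 2)), eventually_ge_atTop (2 : ℝ)] with x hx hx1
      have hx0 : 0 < x := by linarith
      have h3 : x / 2 ≤ ((⌊x⌋₊ : ℕ) : ℝ) := by
        have := Nat.lt_floor_add_one x
        linarith
      calc x ^ (1 - η) = x ^ (1 - η / 2) / x ^ (η / 2) := by rw [← Real.rpow_sub hx0]; ring_nf
        _ ≤ x ^ (1 - η / 2) / (2 : ℝ) ^ (1 - η / 2) :=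
            div_le_div_of_nonneg_left (by positivity) (by positivity) hx
        _ = (x / 2) ^ (1 - η / 2) := by rw [Real.div_rpow hx0.le (by norm_num)]
        _ ≤ _ := Real.rpow_le_rpow (by positivity) h3 hcase.le
  rw [eventually_atTop] at h2
  obtain ⟨X₂, h2⟩ := h2
  refine ⟨max (max ((X₁ : ℝ) + 1) X₂) 1, fun x hx A hA hAx => ?_⟩
  have hx1 : (X₁ : ℝ) + 1 ≤ x := ((le_max_left _ _).trans (le_max_left _ _)).trans hx
  have hx2 : X₂ ≤ x := ((le_max_right _ _).trans (le_max_left _ _)).trans hx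
  have hx3 : 1 ≤ x := (le_max_right _ _).trans hx
  have hX : X₁ ≤ ⌊x⌋₊ := by
    refine Nat.le_floor ?_
    linarith
  have key := h1 ⌊x⌋₊ hX A hA (fun a ha => by
    refine Nat.le_floor ?_
    push_cast
    exact hAx a ha)
  have e1 : ((4 * 2 - 1).choose 2 : ℕ) = 21 := by decide
  rw [e1] at key
  have e2 : ((2 + 1).factorial : ℝ) = 6 := by norm_num [Nat.factorial]
  rw [e2] at key
  have h3 : ∑ T ∈ gd 2 (η / 2) ⌊x⌋₊ A, Uni.CT T ≤ ∑ u ∈ gtri x η A, S3 (u.2.2 - u.2.1) (u.2.2 - u.1) := by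
    unfold gd
    rw [sum_filter, sum_three A (fun T => if ((⌊x⌋₊ : ℕ) : ℝ) ^ (1 - η / 2) ≤ (cnt T ⌊x⌋₊ : ℝ) then Uni.CT T else 0)]
    have e3 : gtri x η A = (tri A).filter (fun u => x ^ (1 - η) ≤ (pi3 x (u.2.2 - u.2.1) (u.2.2 - u.1) : ℝ)) := by
      unfold gtri tri
      rw [filter_filter]
      refine filter_congr fun u _ => ?_
      tauto
    rw [e3, sum_filter]
    apply sum_le_sum
    intro u hu
    unfold tri at hu
    rw [mem_filter] at hu
    obtain ⟨-, hab, hbc⟩ := hu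
    have hst : st u = {u.1, u.2.1, u.2.2} := rfl
    split_ifs with g1 g2
    · rw [hst, ← S3_eq hab hbc]
    · exfalso
      apply g2
      refine (h2 x hx2).trans (g1.trans ?_)
      rw [hst]
      exact_mod_cast cnt_le hab hbc x
    · exact S3_nonneg hab hbc
    · exact le_rfl
  push_cast at key
  linarith

end Pool.Agent.Helper22K9.Trp
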