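import Pool.Agent.Helper22K9.Trp.DeCaen
import Pool.Agent.Helper22K9.Trp.Box

/-!
# The density of the edges if every box contains one
(helper22)
-/

set_option autoImplicit false

namespace Pool.Agent.Helper22K9.Trp

open Finset

/-- If `E` is a set of `(s + 1)`-element subsets of `V` and if every family of `m` disjoint sets of `K` elements has
an edge that is contained in a transversal, then `E` has at least
`(1 / choose (m - 1) s - ε) N ^ (s + 1) / (s + 1)!` elements. -/
theorem turan (s m K : ℕ) (hm : s + 1 ≤ m) {ε : ℝ} (hε : 0 < ε) : ∃ N₀ : ℕ, ∀ (V : Type) [Fintype V]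
    [DecidableEq V], N₀ ≤ Fintype.card V → ∀ E : Finset (Finset V), (∀ e ∈ E, e.card = s + 1) →
    (∀ f : Fin m → Fin K → V, Function.Injective (fun z : Fin m × Fin K => f z.1 z.2) →
      ∃ τ : Fin m → Fin K, ∃ e ∈ E, e ⊆ univ.image (fun i => f i (τ i))) →
    (1 / ((m - 1).choose s : ℝ) - ε) * (Fintype.card V : ℝ) ^ (s + 1) ≤ (E.card : ℝ) * (s + 1).factorial := by
  obtain ⟨N₀, h⟩ := box K m (ε ^ m / 2) (by positivity)
  obtain ⟨N₁, hN₁⟩ := exists_nat_ge ((m : ℝ) ^ 2 / (ε ^ m / 2))
  refine ⟨max (max N₀ N₁) 1, fun V _ _ hN E hE hf => ?_⟩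
  classical
  have hN0' : N₀ ≤ Fintype.card V := ((le_max_left _ _).trans (le_max_left _ _)).trans hN
  have hN1' : N₁ ≤ Fintype.card V := ((le_max_right _ _).trans (le_max_left _ _)).trans hN
  have hNpos : 1 ≤ Fintype.card V := (le_max_right _ _).trans hN
  by_contra hcon
  have hP : ε ^ m * (Fintype.card V : ℝ) ^ m ≤ P E m := by
    by_contra h2
    exact hcon (dens E hE hm hε (by omega) (not_le.1 h2))
  obtain ⟨N, hNdef⟩ : ∃ N : ℝ, N = (Fintype.card V : ℝ) := ⟨_, rfl⟩
  have hN0 : 0 < N := by rw [hNdef]; exact_mod_cast hNpos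
  rw [← hNdef] at hP
  have hmN : (m : ℝ) ^ 2 ≤ ε ^ m / 2 * N := by
    rw [div_le_iff₀ (by positivity)] at hN₁
    have h3 : (N₁ : ℝ) ≤ N := by rw [hNdef]; exact_mod_cast hN1'
    have h4 : (0 : ℝ) < ε ^ m / 2 := by positivity
    nlinarith
  obtain ⟨Q, hQ⟩ : ∃ Q : Finset (Fin m → V), Q = univ.filter (fun v => Ind E v ∧ Function.Injective v) := ⟨_, rfl⟩
  have hQc : ε ^ m / 2 * N ^ m ≤ Q.card := by
    have h1 : P E m ≤ Q.card + ((univ : Finset (Fin m → V)).filter (fun y => ¬ Function.Injective y)).card := by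
      rw [hQ]
      unfold P
      refine (card_le_card ?_).trans (card_union_le _ _)
      intro v hv
      rw [mem_filter] at hv
      rw [mem_union, mem_filter, mem_filter]
      by_cases hi : Function.Injective v
      · exact Or.inl ⟨mem_univ _, hv.2, hi⟩
      · exact Or.inr ⟨mem_univ _, hi⟩
    have h2 : (P E m : ℝ) ≤ Q.card + (((univ : Finset (Fin m → V)).filter
        (fun y => ¬ Function.Injective y)).card : ℝ) := by exact_mod_cast h1
    have h3 : (((univ : Finset (Fin m → V)).filter (fun y => ¬ Function.Injective y)).card : ℝ) * N ≤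
        (m : ℝ) ^ 2 * N ^ m := by
      rw [hNdef]
      exact_mod_cast noninj (V := V) m
    have h4 : (((univ : Finset (Fin m → V)).filter (fun y => ¬ Function.Injective y)).card : ℝ) ≤
        ε ^ m / 2 * N ^ m := by
      have h5 : (((univ : Finset (Fin m → V)).filter (fun y => ¬ Function.Injective y)).card : ℝ) * N ≤
          (ε ^ m / 2 * N ^ m) * N := by
        have h6 : 0 < N ^ m := by positivity
        nlinarith
      exact le_of_mul_le_mul_right h5 hN0
    linarith
  obtain ⟨f, hf1, hf2⟩ := h V hN0' Q (by rw [← hNdef]; exact hQc)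
  rw [hQ] at hf2
  have hinj : Function.Injective (fun z : Fin m × Fin K => f z.1 z.2) := by
    rintro ⟨i, a⟩ ⟨j, b⟩ hij
    have hij' : f i a = f j b := hij
    rcases eq_or_ne i j with rfl | hne
    · rw [hf1 i hij']
    · exfalso
      have h1 := (mem_filter.1 (hf2 (Function.update (fun _ => b) i a))).2.2
      apply hne
      apply h1
      show f i (Function.update (fun _ => b) i a i) = f j (Function.update (fun _ => b) i a j)
      rw [Function.update_self, Function.update_of_ne (Ne.symm hne)]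
      exact hij'
  obtain ⟨τ, e, he, hsub⟩ := hf f hinj
  have h1 := (mem_filter.1 (hf2 τ)).2.1
  exact h1 e he hsub

/-- the same for a finite set of integers -/
theorem turanF (s m K : ℕ) (hm : s + 1 ≤ m) {ε : ℝ} (hε : 0 < ε) : ∃ N₀ : ℕ, ∀ A : Finset ℕ, N₀ ≤ A.card →
    ∀ E ⊆ A.powersetCard (s + 1),
    (∀ f : Fin m → Fin K → ℕ, (∀ i a, f i a ∈ A) → Function.Injective (fun z : Fin m × Fin K => f z.1 z.2) →
      ∃ τ : Fin m → Fin K, ∃ e ∈ E, e ⊆ univ.image (fun i => f i (τ i))) →
    (1 / ((m - 1).choose s : ℝ) - ε) * (A.card : ℝ) ^ (s + 1) ≤ (E.card : ℝ) * (s + 1).factorial := by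
  obtain ⟨N₀, h⟩ := turan s m K hm hε
  refine ⟨N₀, fun A hA E hE hf => ?_⟩
  classical
  have hcard : Fintype.card A = A.card := Fintype.card_coe A
  obtain ⟨E', hE'⟩ : ∃ E' : Finset (Finset A), E' = univ.filter
    (fun e' : Finset A => e'.map (Function.Embedding.subtype _) ∈ E) := ⟨_, rfl⟩
  have hE'c : E'.card ≤ E.card := by
    refine card_le_card_of_injOn (fun e' => e'.map (Function.Embedding.subtype _)) ?_ ?_
    · intro e' he'
      rw [hE', coe_filter] at he'
      exact he'.2
    · intro a _ b _ hab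
      exact map_injective _ hab
  have key := h A (by rw [hcard]; exact hA) E' (by
    intro e' he'
    rw [hE', mem_filter] at he'
    have h1 := (mem_powersetCard.1 (hE he'.2)).2
    rwa [card_map] at h1) (by
    intro f hinj
    obtain ⟨τ, e, he, hsub⟩ := hf (fun i a => (f i a : ℕ)) (fun i a => (f i a).2) (by
      intro z z' hz
      exact hinj (Subtype.ext hz))
    have heA : e ⊆ A := (mem_powersetCard.1 (hE he)).1
    refine ⟨τ, e.subtype (· ∈ A), ?_, ?_⟩
    · rw [hE', mem_filter]
      refine ⟨mem_univ _, ?_⟩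
      have : (e.subtype (· ∈ A)).map (Function.Embedding.subtype _) = e := by
        rw [subtype_map]
        exact filter_true_of_mem heA
      rw [this]
      exact he
    · intro z hz
      rw [mem_subtype] at hz
      obtain ⟨i, -, hi⟩ := mem_image.1 (hsub hz)
      exact mem_image.2 ⟨i, mem_univ _, Subtype.ext hi⟩)
  rw [hcard] at key
  refine key.trans ?_
  exact mul_le_mul_of_nonneg_right (by exact_mod_cast hE'c) (by positivity)

end Pool.Agent.Helper22K9.Trp
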